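import Pool.Agent.U105.LB.Dcp

set_option autoImplicit false

/-!
# All but finitely many blocks are in a countable list
-/

namespace Pool.Agent.U105.LB

open Set MeasureTheory Pool.Agent.H623R2.VE
open Pool.Agent.H579R3.SV (silver polish_cantor not_countable ana_inter)
open Pool.Agent.N649.WL (Dc JJ)

variable {Idx : Type} {a : Idx → ℕ}

/-- The relations between different blocks depend only on the blocks and the colours. -/
def Dcd (x : DS a) : Prop := ∀ (i : Idx) (t t' : Fin (a i) → ℕ),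
  (∀ k, x.2.1 (t k) (t' k) = true ∧ x.2.2 (t k) = x.2.2 (t' k)) →
  (∃ k l, x.2.1 (t k) (t l) = false) → x.1 i t = x.1 i t'

theorem Gm_glue {y : Ys a} {l l' : ℕ → DS a × ℕ} {x x' : DS a} (h : Gm (y, l) x)
    (h' : Gm (y, l') x') (hl : ∀ j, BE (l j) (l' j)) : DIso x x' := by
  classical
  obtain ⟨hx, v, h1, h2, h3, h4⟩ := h
  obtain ⟨hx', v', h1', h2', h3', h4'⟩ := h'
  have hg : ∀ j, BE (x, v j) (x', v' j) := fun j =>
    BE_equiv.trans (h1 j) (BE_equiv.trans (hl j) (BE_equiv.symm (h1' j)))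
  choose g hg using hg
  choose J hJ using h3
  have hJu : ∀ u j, x.2.1 (v j) u = true → J u = j := fun u j h =>
    h2 _ _ (hx.trans _ _ _ (hJ u) (hx.symm _ _ h))
  let G : ℕ → ℕ := fun u => g (J u) u
  have hG : ∀ u, x'.2.1 (v' (J u)) (G u) = true := fun u => (hg (J u)).1.mapsTo (hJ u)
  have hJ' : ∀ u j, x'.2.1 (v' j) (G u) = true → j = J u := fun u j h =>
    h2' _ _ (hx'.trans _ _ _ h (hx'.symm _ _ (hG u)))
  have hinj : Function.Injective G := by
    intro u w huw
    have h5 : J u = J w := hJ' w (J u) (by rw [← huw]; exact hG u)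
    have h6 : g (J u) u = g (J u) w := by
      have : g (J u) u = g (J w) w := huw
      rw [← h5] at this
      exact this
    exact (hg (J u)).1.injOn (hJ u) (by rw [h5]; exact hJ w) h6
  have hsurj : Function.Surjective G := by
    intro z
    obtain ⟨j, hj⟩ := h3' z
    obtain ⟨u, hu, hz⟩ := (hg j).1.surjOn hj
    refine ⟨u, ?_⟩
    show g (J u) u = z
    rw [hJu u j hu]
    exact hz
  refine ⟨Equiv.ofBijective G ⟨hinj, hsurj⟩, fun i t => ?_, fun u w => ?_, fun u => ?_⟩
  · show x.1 i t = x'.1 i (fun k => G (t k))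
    by_cases hc : ∃ k l, J (t k) ≠ J (t l)
    · rw [h4 i (fun k => J (t k)) t (fun k => hJ (t k)) hc,
        h4' i (fun k => J (t k)) (fun k => G (t k)) (fun k => hG (t k)) hc]
      show y i _ = y i _
      congr 1
      funext k
      exact Prod.ext rfl ((hg (J (t k))).2.2 (t k) (hJ (t k))).symm
    · push Not at hc
      have key : ∀ j, (∀ k, J (t k) = j) → x.1 i t = x'.1 i (fun k => G (t k)) := by
        intro j hj
        rw [(hg j).2.1 i t fun k => by
          rw [← hj k]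
          exact hJ (t k)]
        have e : (fun k => g j (t k)) = fun k => G (t k) := by
          funext k
          show g j (t k) = g (J (t k)) (t k)
          rw [hj k]
        show x'.1 i (fun k => g j (t k)) = _
        rw [e]
      rcases isEmpty_or_nonempty (Fin (a i)) with hE | ⟨⟨k0⟩⟩
      · exact key 0 fun k => (hE.false k).elim
      · exact key (J (t k0)) fun k => hc k k0
  · show x'.2.1 (G u) (G w) = x.2.1 u w
    rw [Bool.eq_iff_iff]
    constructor
    · intro h
      have h5 : J u = J w := hJ' w (J u) (hx'.trans _ _ _ (hG u) h)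
      have h6 := hJ w
      rw [← h5] at h6
      exact hx.trans _ _ _ (hx.symm _ _ (hJ u)) h6
    · intro h
      have h5 : J w = J u := hJu w (J u) (hx.trans _ _ _ (hJ u) h)
      have h6 := hG w
      rw [h5] at h6
      exact hx'.trans _ _ _ (hx'.symm _ _ (hG u)) h6
  · exact (hg (J u)).2.2 u (hJ u)

theorem Gm_same {p p' : Ys a × (ℕ → DS a × ℕ)} {x x' : DS a} (h : Gm p x) (h' : Gm p' x')
    (hx : DIso x x') : JJ BE p.2 p'.2 := by
  have key : ∀ {p p' : Ys a × (ℕ → DS a × ℕ)} {x x' : DS a}, Gm p x → Gm p' x' → DIso x x' →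
      ∀ i, ∃ j, BE (p.2 i) (p'.2 j) := by
    rintro p p' x x' ⟨-, v, h1, -, -, -⟩ ⟨hx', v', h1', -, h3', -⟩ ⟨σ, hσ⟩ i
    obtain ⟨j, hj⟩ := h3' (σ (v i))
    exact ⟨j, BE_equiv.trans (BE_equiv.symm (h1 i)) (BE_equiv.trans (hσ.blk (v i))
      (BE_equiv.trans (BE_equiv.symm (hx'.be hj)) (h1' j)))⟩
  refine ⟨key h h' hx, fun j => ?_⟩
  obtain ⟨i, hi⟩ := key h' h hx.symm j
  exact ⟨i, BE_equiv.symm hi⟩

/-- The condition for the existence of sums. -/
def WW (l : ℕ → DS a × ℕ) : Prop :=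
  (∀ j, ∃ w, w ∈ Blk (l j)) ∧ ∀ (i : Idx), IsEmpty (Fin (a i)) → ∀ (t t' : Fin (a i) → ℕ) (j j' : ℕ),
    ((l j).1.1 i t = true ↔ (l j').1.1 i t' = true)

theorem Gm_ww {p : Ys a × (ℕ → DS a × ℕ)} {x : DS a} (h : Gm p x) : WW p.2 := by
  obtain ⟨hx, v, h1, -, -, -⟩ := h
  refine ⟨fun j => ?_, fun i hE t t' j j' => ?_⟩
  · obtain ⟨g, hg⟩ := h1 j
    exact ⟨_, hg.1.mapsTo (hx.refl (v j))⟩
  · have key : ∀ (j : ℕ) (t : Fin (a i) → ℕ),
        ((p.2 j).1.1 i t = true ↔ x.1 i (fun k => (hE.false k).elim) = true) := by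
      intro j t
      obtain ⟨g, hg⟩ := h1 j
      have h2 := hg.2.1 i (fun k => (hE.false k).elim) fun k => (hE.false k).elim
      have e : (fun k => g ((fun k => (hE.false k).elim : Fin (a i) → ℕ) k)) = t :=
        funext fun k => (hE.false k).elim
      rw [e] at h2
      rw [← h2]
    exact (key j t).trans (key j' t').symm

theorem Gm_ex (y : Ys a) {l : ℕ → DS a × ℕ} (hl : WW l) : ∃ x, Gm (y, l) x := by
  classical
  obtain ⟨hw, hnull⟩ := hl
  choose w hw using hw
  let U : Type := {p : ℕ × ℕ // p.2 ∈ Blk (l p.1)}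
  let u0 : ℕ → U := fun j => ⟨(j, w j), hw j⟩
  have hinf : Infinite U := Infinite.of_injective u0 fun i j h => by
    have := congrArg (fun u : U => u.1.1) h
    exact this
  obtain ⟨e⟩ : Nonempty (ℕ ≃ U) := nonempty_equiv_of_countable
  let ix : ℕ → ℕ := fun u => (e u).1.1
  let el : ℕ → ℕ := fun u => (e u).1.2
  let cl : ℕ → ℕ := fun u => (l (ix u)).1.2.2 (el u)
  let rl : Code a := fun i t => if ∃ k l, ix (t k) ≠ ix (t l) then
      y i (fun k => (ix (t k), cl (t k)))
    else if h : 0 < a i then (l (ix (t ⟨0, h⟩))).1.1 i (fun k => el (t k))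
    else (l 0).1.1 i (fun k => el (t k))
  let x : DS a := (rl, fun u w => decide (ix u = ix w), cl)
  have hb : ∀ u w, x.2.1 u w = true ↔ ix u = ix w := fun u w => decide_eq_true_iff
  have hix : ∀ j, ix (e.symm (u0 j)) = j := by
    intro j
    show (e (e.symm (u0 j))).1.1 = j
    rw [e.apply_symm_apply]
  have hBE : ∀ j, BE (x, e.symm (u0 j)) (l j) := by
    intro j
    have hblk : ∀ u, u ∈ Blk (x, e.symm (u0 j)) ↔ ix u = j := by
      intro u
      show x.2.1 (e.symm (u0 j)) u = true ↔ _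
      rw [hb, hix]
      exact eq_comm
    refine ⟨el, ⟨fun u hu => ?_, fun u hu u' hu' h => ?_, fun z hz => ?_⟩, fun i t ht => ?_,
      fun u hu => ?_⟩
    · have h1 : ix u = j := (hblk u).1 hu
      rw [← h1]
      exact (e u).2
    · have h1 : ix u = j := (hblk u).1 hu
      have h2 : ix u' = j := (hblk u').1 hu'
      apply e.injective
      exact Subtype.ext (Prod.ext (h1.trans h2.symm) h)
    · refine ⟨e.symm ⟨(j, z), hz⟩, (hblk _).2 ?_, ?_⟩
      · show (e (e.symm ⟨(j, z), hz⟩)).1.1 = j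
        rw [e.apply_symm_apply]
      · show (e (e.symm ⟨(j, z), hz⟩)).1.2 = z
        rw [e.apply_symm_apply]
    · have h1 : ∀ k, ix (t k) = j := fun k => (hblk _).1 (ht k)
      have h2 : ¬ ∃ k l, ix (t k) ≠ ix (t l) := by
        rintro ⟨k, m, hkm⟩
        exact hkm ((h1 k).trans (h1 m).symm)
      show rl i t = _
      show (if ∃ k l, ix (t k) ≠ ix (t l) then y i (fun k => (ix (t k), cl (t k)))
        else if h : 0 < a i then (l (ix (t ⟨0, h⟩))).1.1 i (fun k => el (t k))
        else (l 0).1.1 i (fun k => el (t k))) = _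
      rw [if_neg h2]
      by_cases h3 : 0 < a i
      · rw [dif_pos h3, h1]
      · rw [dif_neg h3]
        have hE : IsEmpty (Fin (a i)) := by
          rw [not_lt, Nat.le_zero] at h3
          rw [h3]
          infer_instance
        rw [Bool.eq_iff_iff]
        exact hnull i hE _ _ 0 j
    · have h1 : ix u = j := (hblk u).1 hu
      show (l j).1.2.2 (el u) = (l (ix u)).1.2.2 (el u)
      rw [h1]
  refine ⟨x, ⟨fun u => (hb _ _).2 rfl, fun u w h => (hb _ _).2 ((hb _ _).1 h).symm,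
    fun u w z h h' => (hb _ _).2 (((hb _ _).1 h).trans ((hb _ _).1 h'))⟩,
    fun j => e.symm (u0 j), hBE, fun i j h => ?_, fun u => ⟨ix u, ?_⟩, fun i s t hs hst => ?_⟩
  · have := (hb _ _).1 h
    rwa [hix, hix] at this
  · rw [hb, hix]
  · have h1 : ∀ k, ix (t k) = s k := fun k => by
      have := (hb _ _).1 (hs k)
      rw [hix] at this
      exact this.symm
    have h2 : ∃ k l, ix (t k) ≠ ix (t l) := by
      obtain ⟨k, m, hkm⟩ := hst
      exact ⟨k, m, by rw [h1, h1]; exact hkm⟩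
    show (if ∃ k l, ix (t k) ≠ ix (t l) then y i (fun k => (ix (t k), cl (t k)))
        else if h : 0 < a i then (l (ix (t ⟨0, h⟩))).1.1 i (fun k => el (t k))
        else (l 0).1.1 i (fun k => el (t k))) = y i (fun k => (s k, cl (t k)))
    rw [if_pos h2]
    congr 1
    funext k
    rw [h1]

/-- Decomposition of a structure with infinitely many blocks. -/
theorem Gm_comp {x : DS a} (hx : Eqr x) (hd : Dcd x)
    (hinf : ¬ ∃ s : Finset ℕ, ∀ u, ∃ v ∈ s, x.2.1 v u = true) :
    ∃ (y : Ys a) (v : ℕ → ℕ), Gm (y, fun j => (x, v j)) x ∧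
      (∀ i j, x.2.1 (v i) (v j) = true → i = j) ∧ ∀ u, ∃ j, x.2.1 (v j) u = true := by
  classical
  let st : Setoid ℕ := ⟨fun u w => x.2.1 u w = true, fun u => hx.refl u,
    fun h => hx.symm _ _ h, fun h h' => hx.trans _ _ _ h h'⟩
  have hI : Infinite (Quotient st) := by
    rw [← not_finite_iff_infinite]
    intro hf
    have hft : Fintype (Quotient st) := Fintype.ofFinite _
    refine hinf ⟨Finset.univ.image fun q : Quotient st => q.out, fun u => ?_⟩
    refine ⟨(Quotient.mk st u).out, Finset.mem_image.2 ⟨_, Finset.mem_univ _, rfl⟩, ?_⟩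
    exact Quotient.mk_out (s := st) u
  obtain ⟨e⟩ : Nonempty (ℕ ≃ Quotient st) := nonempty_equiv_of_countable
  let v : ℕ → ℕ := fun j => (e j).out
  have h2 : ∀ i j, x.2.1 (v i) (v j) = true → i = j := by
    intro i j hij
    apply e.injective
    rw [← Quotient.out_eq (e i), ← Quotient.out_eq (e j)]
    exact Quotient.sound (s := st) hij
  have h3 : ∀ u, ∃ j, x.2.1 (v j) u = true := by
    intro u
    refine ⟨e.symm (Quotient.mk st u), ?_⟩
    show x.2.1 (e (e.symm (Quotient.mk st u))).out u = true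
    rw [e.apply_symm_apply]
    exact Quotient.mk_out (s := st) u
  refine ⟨fun i q => decide (∃ t : Fin (a i) → ℕ, (∀ k, x.2.1 (v (q k).1) (t k) = true ∧
    x.2.2 (t k) = (q k).2) ∧ x.1 i t = true), v, ⟨hx, v, fun j => BE_equiv.refl _, h2, h3,
    fun i s t hs hst => ?_⟩, h2, h3⟩
  rw [Bool.eq_iff_iff]
  show _ ↔ decide _ = true
  rw [decide_eq_true_iff]
  constructor
  · intro h
    exact ⟨t, fun k => ⟨hs k, rfl⟩, h⟩
  · rintro ⟨t', ht', h⟩
    rw [← h]
    refine hd i t t' (fun k => ⟨?_, ((ht' k).2).symm⟩) ?_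
    · exact hx.trans _ _ _ (hx.symm _ _ (hs k)) (ht' k).1
    · obtain ⟨k, m, hkm⟩ := hst
      refine ⟨k, m, ?_⟩
      rw [Bool.eq_false_iff]
      intro h5
      exact hkm (h2 _ _ (hx.trans _ _ _ (hs k) (hx.trans _ _ _ h5 (hx.symm _ _ (hs m)))))

section main

variable [Countable Idx]

theorem ww_meas : MeasurableSet {p : Ys a × (ℕ → DS a × ℕ) | WW p.2} := by
  have h1 : ∀ j, Measurable fun p : Ys a × (ℕ → DS a × ℕ) => (p.2 j).1 := fun j =>
    measurable_fst.comp ((measurable_pi_apply j).comp measurable_snd)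
  have h2 : ∀ j, Measurable fun p : Ys a × (ℕ → DS a × ℕ) => (p.2 j).2 := fun j =>
    measurable_snd.comp ((measurable_pi_apply j).comp measurable_snd)
  refine measurableSet_setOfPred.2 (Measurable.and ?_ ?_)
  · refine Measurable.forall fun j => Measurable.exists fun w => ?_
    exact m_blk (h1 j) (h2 j) measurable_const
  · refine Measurable.forall fun i => Measurable.imp measurable_const
      (Measurable.forall fun t => Measurable.forall fun t' => Measurable.forall fun j =>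
        Measurable.forall fun j' => Measurable.iff ?_ ?_)
    · exact m_tup (h1 j) i fun k => measurable_const
    · exact m_tup (h1 j') i fun k => measurable_const

theorem G_meas {K : Set (DS a)} (hK : MeasurableSet K)
    (hinv : ∀ x ∈ K, ∀ x', DIso x x' → x' ∈ K) :
    MeasurableSet {p : Ys a × (ℕ → DS a × ℕ) | ∃ x ∈ K, Gm p x} := by
  have i9 := i_polA (a := a)
  have i10 := i_borA (a := a)
  have i11 := i_polG (a := a)
  have i12 := i_borG (a := a)
  have key : ∀ K : Set (DS a), MeasurableSet K →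
      AnalyticSet {p : Ys a × (ℕ → DS a × ℕ) | ∃ x ∈ K, Gm p x} := by
    intro K hK
    have h1 : MeasurableSet {q : (Ys a × (ℕ → DS a × ℕ)) × DS a | q.2 ∈ K} := measurable_snd hK
    have h2 := (ana_inter h1.analyticSet Gm_ana).image_of_continuous (f := Prod.fst)
      continuous_fst
    refine (congrArg AnalyticSet ?_).mp h2
    ext l
    constructor
    · rintro ⟨⟨l', c⟩, ⟨h1, h2⟩, rfl⟩
      exact ⟨c, h1, h2⟩
    · rintro ⟨c, h1, h2⟩
      exact ⟨(l, c), ⟨h1, h2⟩, rfl⟩
  refine (key K hK).measurableSet_of_compl ?_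
  have e : {p : Ys a × (ℕ → DS a × ℕ) | ∃ x ∈ K, Gm p x}ᶜ =
      ⋃ b : Bool, (if b = true then {p : Ys a × (ℕ → DS a × ℕ) | ∃ x ∈ Kᶜ, Gm p x} else
      {p : Ys a × (ℕ → DS a × ℕ) | WW p.2}ᶜ) := by
    ext p
    simp only [mem_iUnion, Bool.exists_bool, Bool.false_eq_true, if_false, if_true]
    constructor
    · intro h
      by_cases hn : WW p.2
      · obtain ⟨x, hx⟩ := Gm_ex p.1 hn
        right
        exact ⟨x, fun hxK => h ⟨x, hxK, hx⟩, hx⟩
      · exact Or.inl hn
    · rintro (h | ⟨x, hx, hpx⟩)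
      · rintro ⟨x', hx', hpx'⟩
        exact h (Gm_ww hpx')
      · rintro ⟨x', hx', hpx'⟩
        exact hx (hinv x' hx' x (Gm_glue (y := p.1) (l := p.2) (l' := p.2) hpx' hpx
          fun j => BE_equiv.refl _))
  rw [e]
  refine AnalyticSet.iUnion fun b => ?_
  cases b
  · rw [if_neg (by decide)]
    exact ww_meas.compl.analyticSet
  · rw [if_pos rfl]
    exact key Kᶜ hK.compl

/-- **All but finitely many blocks are in a countable list.** -/
theorem dec_main {K : Set (DS a)} (hK : MeasurableSet K)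
    (hinv : ∀ x ∈ K, ∀ x', DIso x x' → x' ∈ K) (hd : ∀ x ∈ K, Eqr x ∧ Dcd x) :
    (∃ f : (ℕ → Bool) → DS a, Continuous f ∧ (∀ b, f b ∈ K) ∧
      ∀ b b', DIso (f b) (f b') → b = b') ∨
    ∃ D : Set (DS a × ℕ), D.Countable ∧ ∀ x ∈ K, ∃ s : Finset ℕ, ∀ u,
      (∃ d ∈ D, BE (x, u) d) ∨ ∃ v ∈ s, x.2.1 v u = true := by
  classical
  have i1 := i_pol (a := a)
  have i2 := i_bor (a := a)
  have i3 := i_polX (a := a)
  have i4 := i_borX (a := a)
  have i7 := i_polY (a := a)
  have i8 := i_borY (a := a)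
  have i9 := i_polA (a := a)
  have i10 := i_borA (a := a)
  rcases gen (J := ℕ) (Y := Ys a) (X := DS a × ℕ) BE_equiv BE_ana ∅ MeasurableSet.empty
    (fun x hx => absurd hx (notMem_empty x)) (fun C _ hC _ => by
      left
      refine ⟨∅, empty_subset _, countable_empty, fun x hx => absurd (hC hx) (notMem_empty x)⟩)
    (G_meas hK hinv) (by
      rintro p y z hyz ⟨x, hx, hy⟩
      refine ⟨x, hx, ?_⟩
      obtain ⟨hxe, v, h1, h2, h3, h4⟩ := hy
      exact ⟨hxe, v, fun j => BE_equiv.trans (h1 j) (hyz j), h2, h3, h4⟩) with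
    ⟨h, hm, h1, h2⟩ | ⟨D, hD, hD2⟩
  · left
    exact lift_perf (h := h) hm Gm_ana hK h1 (G := DIso) (by
        intro b b' c c' hc hc' hg
        by_contra hne
        exact h2 b b' hne (Gm_same hc hc' hg))
  · right
    refine ⟨D, hD, fun x hx => ?_⟩
    by_cases hfin : ∃ s : Finset ℕ, ∀ u, ∃ v ∈ s, x.2.1 v u = true
    · obtain ⟨s, hs⟩ := hfin
      exact ⟨s, fun u => Or.inr (hs u)⟩
    · obtain ⟨hxe, hxd⟩ := hd x hx
      obtain ⟨y, v, h1, h2, h3⟩ := Gm_comp hxe hxd hfin
      obtain ⟨hfin, -⟩ := hD2 (y, fun j => (x, v j)) ⟨x, hx, h1⟩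
      refine ⟨hfin.toFinset.image v, fun u => ?_⟩
      obtain ⟨j, hj⟩ := h3 u
      by_cases h : j ∈ hfin.toFinset
      · exact Or.inr ⟨v j, Finset.mem_image_of_mem v h, hj⟩
      · left
        have h' : ¬ ∀ d ∈ D, ¬ BE d (x, v j) := fun h4 => h (hfin.mem_toFinset.2 h4)
        push Not at h'
        obtain ⟨d, hd, hdc⟩ := h'
        exact ⟨d, hd, BE_equiv.trans (BE_equiv.symm (hxe.be hj)) (BE_equiv.symm hdc)⟩

end main

end Pool.Agent.U105.LB
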