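import Pool.Agent.U105.LB.Rpt
import Pool.Agent.U105.LB.Dcq
import Pool.Agent.N649.WL.Inst

set_option autoImplicit false

/-!
# Assembly: sequences of orbits, linear orders with monotone relations, definable decompositions,
pieces over finite sets
-/

namespace Pool.Agent.U105.LB

open Set MeasureTheory Pool.Agent.H623R2.VE Pool.Agent.H579R3.VP Pool.Agent.H579R3.VR
open Pool.Agent.H579R3.SV (silver polish_cantor not_countable ana_inter)
open Pool.Agent.N649.WL (Dc LE JJ)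
open Pool.Agent.R529.AM (Linked piece SamePiece samePiece_iff mem_piece_iff iso_iff)

/-! ### Sequences of natural numbers up to permutation -/

/-- The value `n` is taken at least `k + 1` times. -/
def Mu (κ : ℕ → ℕ) (n k : ℕ) : Prop :=
  ∃ v : Fin (k + 1) → ℕ, Function.Injective v ∧ ∀ i, κ (v i) = n

theorem perm_iff (κ κ' : ℕ → ℕ) : (∃ σ : Equiv.Perm ℕ, ∀ m, κ m = κ' (σ m)) ↔
    ∀ n k, Mu κ n k ↔ Mu κ' n k := by
  classical
  constructor
  · rintro ⟨σ, hσ⟩ n k
    constructor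
    · rintro ⟨v, h1, h2⟩
      exact ⟨fun i => σ (v i), σ.injective.comp h1, fun i => by rw [← hσ, h2]⟩
    · rintro ⟨v, h1, h2⟩
      exact ⟨fun i => σ.symm (v i), σ.symm.injective.comp h1, fun i => by
        rw [hσ, σ.apply_symm_apply, h2]⟩
  · intro h
    have hM : ∀ (κ : ℕ → ℕ) (n k : ℕ), Mu κ n k ↔ Nonempty (Fin (k + 1) ↪ {m // κ m = n}) := by
      intro κ n k
      constructor
      · rintro ⟨v, h1, h2⟩
        exact ⟨⟨fun i => ⟨v i, h2 i⟩, fun i j hij => h1 (congrArg Subtype.val hij)⟩⟩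
      · rintro ⟨e⟩
        exact ⟨fun i => (e i).1, fun i j hij => e.injective (Subtype.ext hij), fun i => (e i).2⟩
    have h3 : ∀ n, Nonempty ({m // κ m = n} ≃ {m // κ' m = n}) := by
      intro n
      refine equiv_of_emb fun k => ?_
      rw [← hM, ← hM]
      exact h n k
    let e : ℕ ≃ ℕ := ((Equiv.sigmaFiberEquiv κ).symm.trans
      (Equiv.sigmaCongrRight fun n => (h3 n).some)).trans (Equiv.sigmaFiberEquiv κ')
    refine ⟨e, fun m => ?_⟩
    exact (((h3 (κ m)).some ⟨m, rfl⟩).2).symm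

theorem mu_meas (n k : ℕ) : Measurable fun κ : ℕ → ℕ => Mu κ n k := by
  unfold Mu
  refine Measurable.exists fun v => Measurable.and measurable_const
    (Measurable.forall fun i => ?_)
  have h1 : Measurable fun κ : ℕ → ℕ => κ (v i) := measurable_pi_apply (v i)
  exact measurableSet_setOfPred.1 (h1 (measurableSet_singleton n))

/-- The dichotomy for sequences of natural numbers up to permutation. -/
theorem dc_nat {C : Set (Unit × (ℕ → ℕ))} (hC : MeasurableSet C) :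
    Dc (LE (fun (_ : Equiv.Perm ℕ) (_ _ : Unit) => True) (· = ·)) C := by
  have key : ∀ p q : Unit × (ℕ → ℕ), LE (fun (_ : Equiv.Perm ℕ) (_ _ : Unit) => True) (· = ·) p q ↔
      ∀ n k, Mu p.2 n k ↔ Mu q.2 n k := by
    intro p q
    rw [← perm_iff]
    constructor
    · rintro ⟨σ, -, h⟩
      exact ⟨σ, h⟩
    · rintro ⟨σ, h⟩
      exact ⟨σ, trivial, h⟩
  rcases silver (X := Unit × (ℕ → ℕ)) (E := fun p q => ∀ n k, Mu p.2 n k ↔ Mu q.2 n k)
    ⟨fun p n k => Iff.rfl, fun h n k => (h n k).symm, fun h h' n k => (h n k).trans (h' n k)⟩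
    (by
      refine measurableSet_setOfPred.2 (Measurable.forall fun n => Measurable.forall fun k =>
        Measurable.iff ?_ ?_)
      · exact (mu_meas n k).comp (measurable_snd.comp measurable_fst)
      · exact (mu_meas n k).comp (measurable_snd.comp measurable_snd))
    hC.analyticSet with ⟨S, h1, h2, h3⟩ | ⟨h, h1, h2, h3⟩
  · left
    refine ⟨S, h1, h2, fun x hx => ?_⟩
    obtain ⟨y, hy, hxy⟩ := h3 x hx
    exact ⟨y, hy, (key _ _).2 hxy⟩
  · right
    exact ⟨h, h1.measurable, h2, fun b b' hb hL => h3 b b' hb ((key _ _).1 hL)⟩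

section labels

variable {X : Type} [TopologicalSpace X] [PolishSpace X] [MeasurableSpace X] [BorelSpace X]

/-- Sequences up to permutation. -/
theorem seqs {E : X → X → Prop} (hE : Equivalence E)
    (hEa : AnalyticSet {q : X × X | E q.1 q.2}) (Z : Set X) (hZm : MeasurableSet Z)
    (hZi : ∀ x ∈ Z, ∀ x', E x x' → x' ∈ Z)
    (hX : ∀ C : Set X, MeasurableSet C → C ⊆ Z → (∀ x ∈ C, ∀ x', E x x' → x' ∈ C) → Dc E C)
    {A : Set (ℕ → X)} (hA : MeasurableSet A)
    (hinv : ∀ p ∈ A, ∀ q : ℕ → X, (∃ σ : Equiv.Perm ℕ, ∀ n, E (p n) (q (σ n))) → q ∈ A) :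
    (∃ h : (ℕ → Bool) → ℕ → X, Measurable h ∧ (∀ b, h b ∈ A) ∧
      ∀ b b', b ≠ b' → ¬ ∃ σ : Equiv.Perm ℕ, ∀ n, E (h b n) (h b' (σ n))) ∨
    ∃ S ⊆ A, S.Countable ∧ ∀ p ∈ A, (∀ j, p j ∈ Z ∨ ∃ q ∈ A, {i | E (p j) (q i)}.Infinite) →
      ∃ q ∈ S, ∃ σ : Equiv.Perm ℕ, ∀ n, E (p n) (q (σ n)) := by
  rcases main2 (Y := Unit) (J := ℕ) (fun (_ : Equiv.Perm ℕ) (_ _ : Unit) => True)
    (fun _ => trivial) hE hEa Z hZm hZi hX univ (fun C hC _ _ => dc_nat hC)
    (A := {p : Unit × (ℕ → X) | p.2 ∈ A}) (measurable_snd hA) (fun _ _ _ _ => mem_univ _)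
    (by
      rintro p hp q ⟨σ, -, h⟩
      exact hinv _ hp _ ⟨σ, h⟩) with ⟨h, h1, h2, h3⟩ | ⟨S, h1, h2, h3⟩
  · left
    exact ⟨fun b => (h b).2, measurable_snd.comp h1, h2, fun b b' hb ⟨σ, hσ⟩ =>
      h3 b b' hb ⟨σ, trivial, hσ⟩⟩
  · right
    refine ⟨Prod.snd '' S, ?_, h2.image _, fun p hp hr => ?_⟩
    · rintro _ ⟨q, hq, rfl⟩
      exact h1 hq
    · obtain ⟨q, hq, σ, -, hσ⟩ := h3 ((), p) hp fun j => by
        rcases hr j with h | ⟨q, hq, hi⟩
        · exact Or.inl h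
        · exact Or.inr ⟨((), q), hq, hi⟩
      exact ⟨q.2, ⟨q, hq, rfl⟩, σ, hσ⟩

open Pool.Agent.Y558.MC (XS SO IsoS) in
/-- Linear orders with monotone relations. -/
theorem sorts {E : X → X → Prop} (hE : Equivalence E)
    (hEa : AnalyticSet {q : X × X | E q.1 q.2}) (Z : Set X) (hZm : MeasurableSet Z)
    (hZi : ∀ x ∈ Z, ∀ x', E x x' → x' ∈ Z)
    (hX : ∀ C : Set X, MeasurableSet C → C ⊆ Z → (∀ x ∈ C, ∀ x', E x x' → x' ∈ C) → Dc E C)
    {A : Set (XS × (ℕ → X))} (hA : MeasurableSet A) (hAS : ∀ p ∈ A, SO p.1)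
    (hinv : ∀ p ∈ A, ∀ q, LE IsoS E p q → q ∈ A) :
    (∃ h : (ℕ → Bool) → XS × (ℕ → X), Measurable h ∧ (∀ b, h b ∈ A) ∧
      ∀ b b', b ≠ b' → ¬ LE IsoS E (h b) (h b')) ∨
    ∃ S ⊆ A, S.Countable ∧ ∀ p ∈ A, (∀ j, p.2 j ∈ Z ∨ ∃ q ∈ A, {i | E (p.2 j) (q.2 i)}.Infinite) →
      ∃ q ∈ S, LE IsoS E p q := by
  have i1 := Pool.Agent.N649.WL.bsS
  exact main2 IsoS (fun y => ⟨fun i m n => rfl, fun p m => rfl, fun j m => rfl⟩) hE hEa Z hZm hZi
    hX {q | SO q.1} (fun C h1 h2 h3 => Pool.Agent.N649.WL.dc_sorted h1 h2 h3) hA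
    (fun p hp _ _ => hAS p hp) hinv

end labels

/-! ### Definable decompositions -/

section dec

variable {Idx : Type} [Countable Idx] {a : Idx → ℕ}

theorem delta_main (B : Set (Code a)) (hB : MeasurableSet B)
    (hi : ∀ (x y : Code a) (σ : Equiv.Perm ℕ),
      (∀ i (t : Fin (a i) → ℕ), x i t = y i (fun k => σ (t k))) → x ∈ B → y ∈ B)
    (δ : Code a → (ℕ → ℕ → Bool) × (ℕ → ℕ)) (hδ : Measurable δ)
    (heq : ∀ (x y : Code a) (σ : Equiv.Perm ℕ),
      (∀ i (t : Fin (a i) → ℕ), x i t = y i (fun k => σ (t k))) →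
      (∀ u w, (δ y).1 (σ u) (σ w) = (δ x).1 u w) ∧ ∀ u, (δ y).2 (σ u) = (δ x).2 u) :
    (∃ f : (ℕ → Bool) → Code a, Continuous f ∧ (∀ b, f b ∈ B) ∧ ∀ b b',
      (∃ σ : Equiv.Perm ℕ, ∀ i (t : Fin (a i) → ℕ), f b i t = f b' i (fun k => σ (t k))) →
      b = b') ∨
    ∃ D : Set (Code a × ℕ), D.Countable ∧ ∀ x ∈ B, Eqr (x, δ x) → Dcd (x, δ x) →
      ∃ s : Finset ℕ, ∀ u, (∃ d ∈ D, BE ((x, δ x), u) ((d.1, δ d.1), d.2)) ∨
        ∃ v ∈ s, (δ x).1 v u = true := by
  classical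
  have i1 := i_pol (a := a)
  have i2 := i_bor (a := a)
  have j1 : PolishSpace (Code a) := inferInstance
  have j2 : BorelSpace (Code a) := inferInstance
  let K : Set (DS a) := {x | x.1 ∈ B ∧ x.2 = δ x.1 ∧ Eqr x ∧ Dcd x}
  have hdm : Measurable fun x : DS a => Dcd x := by
    have hid : Measurable fun x : DS a => x := measurable_id
    have e : (fun x : DS a => Dcd x) = fun x => ∀ (i : Idx) (t t' : Fin (a i) → ℕ),
        (∀ k, x.2.1 (t k) (t' k) = true ∧ x.2.2 (t k) = x.2.2 (t' k)) →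
        (∃ k l, ¬ x.2.1 (t k) (t l) = true) → (x.1 i t = true ↔ x.1 i t' = true) := by
      funext x
      apply propext
      unfold Dcd
      refine forall_congr' fun i => forall_congr' fun t => forall_congr' fun t' =>
        imp_congr_right fun _ => imp_congr ?_ ?_
      · refine exists_congr fun k => exists_congr fun l => ?_
        rw [Bool.not_eq_true]
      · exact Bool.eq_iff_iff
    rw [e]
    refine Measurable.forall fun i => Measurable.forall fun t => Measurable.forall fun t' =>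
      Measurable.imp (Measurable.forall fun k => Measurable.and ?_ ?_)
      (Measurable.imp (Measurable.exists fun k => Measurable.exists fun l => Measurable.not ?_)
      (Measurable.iff ?_ ?_))
    · exact m_blk hid measurable_const measurable_const
    · exact m_eq (m_col hid measurable_const) (m_col hid measurable_const)
    · exact m_blk hid measurable_const measurable_const
    · exact m_tup hid i fun k => measurable_const
    · exact m_tup hid i fun k => measurable_const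
  have h0 : BorelSpace (ℕ → Bool) := inferInstance
  have h1 : BorelSpace (ℕ → ℕ → Bool) := inferInstance
  have h4 : BorelSpace ((ℕ → ℕ → Bool) × (ℕ → ℕ)) := Prod.borelSpace
  have hK : MeasurableSet K := by
    refine MeasurableSet.inter (measurable_fst hB) (MeasurableSet.inter ?_
      (MeasurableSet.inter ?_ ?_))
    · exact measurableSet_eq_fun measurable_snd (hδ.comp measurable_fst)
    · exact measurableSet_setOfPred.2 (m_eqr measurable_id)
    · exact measurableSet_setOfPred.2 hdm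
  have hinv : ∀ x ∈ K, ∀ x', DIso x x' → x' ∈ K := by
    rintro x ⟨h1, h2, h3, h4⟩ x' ⟨σ, k1, k2, k3⟩
    have hs : ∀ u, ∃ w, σ w = u := fun u => σ.surjective u
    refine ⟨hi _ _ σ k1 h1, ?_, ⟨fun u => ?_, fun u w h => ?_, fun u w z h h' => ?_⟩, ?_⟩
    · obtain ⟨m1, m2⟩ := heq _ _ σ k1
      refine Prod.ext (funext fun u => funext fun w => ?_) (funext fun u => ?_)
      · obtain ⟨u, rfl⟩ := hs u
        obtain ⟨w, rfl⟩ := hs w
        rw [k2, m1, h2]
      · obtain ⟨u, rfl⟩ := hs u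
        rw [k3, m2, h2]
    · obtain ⟨u, rfl⟩ := hs u
      rw [k2]
      exact h3.refl u
    · obtain ⟨u, rfl⟩ := hs u
      obtain ⟨w, rfl⟩ := hs w
      rw [k2] at h ⊢
      exact h3.symm _ _ h
    · obtain ⟨u, rfl⟩ := hs u
      obtain ⟨w, rfl⟩ := hs w
      obtain ⟨z, rfl⟩ := hs z
      rw [k2] at h h' ⊢
      exact h3.trans _ _ _ h h'
    · intro i t t' ht hne
      have e : ∀ t : Fin (a i) → ℕ, (fun k => σ (σ.symm (t k))) = t := fun t =>
        funext fun k => σ.apply_symm_apply _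
      have h5 := h4 i (fun k => σ.symm (t k)) (fun k => σ.symm (t' k)) (fun k => by
        rw [← k2, ← k3, ← k3, σ.apply_symm_apply, σ.apply_symm_apply]
        exact ht k) (by
        obtain ⟨k, l, hkl⟩ := hne
        refine ⟨k, l, ?_⟩
        rw [← k2, σ.apply_symm_apply, σ.apply_symm_apply]
        exact hkl)
      rw [k1, k1, e, e] at h5
      exact h5
  rcases dec_main hK hinv (fun x hx => hx.2.2) with ⟨f, f1, f2, f3⟩ | ⟨D, hD, hD2⟩
  · left
    refine ⟨fun b => (f b).1, continuous_fst.comp f1, fun b => (f2 b).1, fun b b' ⟨σ, hσ⟩ => ?_⟩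
    refine f3 b b' ⟨σ, hσ, fun u w => ?_, fun u => ?_⟩
    · rw [(f2 b).2.1, (f2 b').2.1]
      exact (heq _ _ σ hσ).1 u w
    · rw [(f2 b).2.1, (f2 b').2.1]
      exact (heq _ _ σ hσ).2 u
  · right
    let r : DS a × ℕ → Code a × ℕ := fun d =>
      if h : ∃ q : Code a × ℕ, BE ((q.1, δ q.1), q.2) d then h.choose else (d.1.1, d.2)
    refine ⟨r '' D, hD.image _, fun x hx he hd => ?_⟩
    obtain ⟨s, hs⟩ := hD2 (x, δ x) ⟨hx, rfl, he, hd⟩
    refine ⟨s, fun u => ?_⟩
    rcases hs u with ⟨d, hd, hb⟩ | h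
    · left
      refine ⟨r d, ⟨d, hd, rfl⟩, ?_⟩
      have h : ∃ q : Code a × ℕ, BE ((q.1, δ q.1), q.2) d := ⟨(x, u), hb⟩
      have e : r d = h.choose := dif_pos h
      rw [e]
      exact BE_equiv.trans hb (BE_equiv.symm h.choose_spec)
    · exact Or.inr h

end dec

/-! ### Pieces over finite sets -/

variable {a : ℕ → ℕ}

theorem pieces_main (B : Set (Code a)) (hB : MeasurableSet B)
    (hi : ∀ x y : Code a, GIso (toI x) (toI y) → x ∈ B → y ∈ B) :
    Perf GIso B ∨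
    (∃ D : Set (Code a × ℕ), D.Countable ∧ ∀ n, ∀ x ∈ B, ∃ s : Finset ℕ, ∀ u, n ≤ u →
      (∃ d ∈ D, n ≤ d.2 ∧ SamePiece n x u d.1 d.2) ∨ ∃ v ∈ s, n ≤ v ∧ u ∈ piece n x v) ∧
    ∃ S : Set (Code a), S.Countable ∧ ∀ x ∈ B, (∃ (n : ℕ) (y : Code a), GIso (toI x) (toI y) ∧
      ∀ u, n ≤ u → ∃ z ∈ B, ∃ w : ℕ → ℕ, (∀ i, n ≤ w i) ∧
        (∀ i j, w j ∈ piece n z (w i) → i = j) ∧ ∀ i, SamePiece n y u z (w i)) →
      ∃ x' ∈ S, GIso (toI x) (toI x') := by
  classical
  by_cases hP : Perf GIso B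
  · exact Or.inl hP
  right
  have hPn : ∀ n, ¬ Perf GIso (back ⁻¹' B : Set (Code (ar a n))) := by
    intro n h
    obtain ⟨f, f1, f2, f3⟩ := perf_back h
    exact hP ⟨fun b => back (f b), continuous_back.comp f1, f2, f3⟩
  have hBm : ∀ n, MeasurableSet (back ⁻¹' B : Set (Code (ar a n))) := fun n =>
    continuous_back.measurable hB
  have hinv : ∀ n, ∀ c c' : Code (ar a n), GIso (toI c) (toI c') → c ∈ (back ⁻¹' B : Set _) →
      c' ∈ (back ⁻¹' B : Set _) := fun n c c' h hc => hi _ _ (giso_back h) hc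
  have hc : ∀ n, ∃ D : Set (Code (ar a n) × ℕ), D.Countable ∧ ∀ c ∈ (back ⁻¹' B : Set _),
      ∃ s : Finset ℕ, ∀ u, (∃ d ∈ D, CEq (toI c) u (toI d.1) d.2) ∨ ∃ v ∈ s, Conn (toI c) v u :=
    fun n => (comp_main (hBm n) (hinv n)).resolve_left (hPn n)
  choose D hD hD2 using hc
  have hr : ∀ n, ∃ S : Set (Code (ar a n)), S.Countable ∧ ∀ c ∈ (back ⁻¹' B : Set _),
      (∀ b, Rp (back ⁻¹' B) c b) → ∃ c' ∈ S, GIso (toI c) (toI c') := fun n =>
    (rep_main (hBm n) (hD n) (hD2 n)).resolve_left (hPn n)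
  choose S hS hS2 using hr
  refine ⟨⟨⋃ n, (fun d : Code (ar a n) × ℕ => ((back d.1 : Code a), n + d.2)) '' (D n),
    countable_iUnion fun n => (hD n).image _, fun n x hx => ?_⟩,
    ⋃ n, back '' (S n), countable_iUnion fun n => (hS n).image _, ?_⟩
  · obtain ⟨s, hs⟩ := hD2 n (rest n x) (by
      show back (rest n x) ∈ B
      rw [back_rest]
      exact hx)
    refine ⟨s.image fun v => n + v, fun u hu => ?_⟩
    obtain ⟨u, rfl⟩ := Nat.exists_eq_add_of_le hu
    rcases hs u with ⟨d, hd, h⟩ | ⟨v, hv, h⟩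
    · left
      refine ⟨(back d.1, n + d.2), mem_iUnion.2 ⟨n, d, hd, rfl⟩, Nat.le_add_right _ _, ?_⟩
      rw [samePiece_iff, rest_back]
      exact h
    · right
      exact ⟨n + v, Finset.mem_image.2 ⟨v, hv, rfl⟩, Nat.le_add_right _ _, (mem_piece_iff x).2 h⟩
  · rintro x hx ⟨n, y, hxy, hy⟩
    have hyB : y ∈ B := hi _ _ hxy hx
    obtain ⟨c', hc', h⟩ := hS2 n (rest n y) (by
      show back (rest n y) ∈ B
      rw [back_rest]
      exact hyB) (by
      intro b
      obtain ⟨z, hz, w, h1, h2, h3⟩ := hy (n + b) (Nat.le_add_right _ _)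
      refine ⟨rest n z, ?_, fun i => w i - n, fun i j hij => ?_, fun i => ?_⟩
      · show back (rest n z) ∈ B
        rw [back_rest]
        exact hz
      · refine h2 i j ?_
        have h4 := (mem_piece_iff (n := n) z).2 hij
        rw [Nat.add_sub_cancel' (h1 i), Nat.add_sub_cancel' (h1 j)] at h4
        exact h4
      · rw [← samePiece_iff, Nat.add_sub_cancel' (h1 i)]
        exact h3 i)
    refine ⟨back c', mem_iUnion.2 ⟨n, c', hc', rfl⟩, ?_⟩
    have h5 := giso_back h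
    rw [back_rest] at h5
    exact hxy.trans h5

end Pool.Agent.U105.LB
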