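import Pool.Agent.U105.LB.Gen
import Pool.Agent.H579R3.VR

set_option autoImplicit false

/-!
# Components of the members of a Borel class of structures

Let `K` be an isomorphism-invariant Borel class of structures. Then `K` contains a perfect set of
pairwise non-isomorphic structures, or there is a countable list of structures such that all but
finitely many components of every member of `K` are isomorphic to components from the list.
-/

namespace Pool.Agent.U105.LB

open Set MeasureTheory Pool.Agent.H623R2.VE Pool.Agent.H579R3.VP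
open Pool.Agent.H579R3.SV (silver polish_cantor not_countable)
open Pool.Agent.N649.WL (Dc JJ)

variable {Idx : Type} {a : Idx → ℕ}

/-- Two elements of structures with isomorphic components. -/
def PE (p q : Code a × ℕ) : Prop := CEq (toI p.1) p.2 (toI q.1) q.2

theorem PE_equiv : Equivalence (PE (a := a)) where
  refl _ := CEq.refl _ _
  symm h := CEq.symm h
  trans h h' := CEq.trans h h'

section meas

variable {W : Type*} [MeasurableSpace W] [Countable Idx]

theorem m_conn {c : W → Code a} (hc : Measurable c) {u v : W → ℕ} (hu : Measurable u)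
    (hv : Measurable v) : Measurable fun w => Conn (toI (c w)) (u w) (v w) := by
  have e : (fun w => Conn (toI (c w)) (u w) (v w)) = fun w => ∃ p q : ℕ, u w = p ∧ v w = q ∧
      Conn (toI (c w)) p q := by
    funext w
    apply propext
    constructor
    · intro h
      exact ⟨_, _, rfl, rfl, h⟩
    · rintro ⟨p, q, rfl, rfl, h⟩
      exact h
  rw [e]
  refine Measurable.exists fun p => Measurable.exists fun q => Measurable.and ?_
    (Measurable.and ?_ ?_)
  · exact measurableSet_setOfPred.1 (hu (measurableSet_singleton p))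
  · exact measurableSet_setOfPred.1 (hv (measurableSet_singleton q))
  · exact measurableSet_setOfPred.1 (hc (measurableSet_conn p q))

theorem m_rel {c : W → Code a} (hc : Measurable c) (i : Idx) {s : W → Fin (a i) → ℕ}
    (hs : ∀ k, Measurable fun w => s w k) : Measurable fun w => toI (c w) i (s w) := by
  have e : (fun w => toI (c w) i (s w)) = fun w => ∃ s0 : Fin (a i) → ℕ, (∀ k, s w k = s0 k) ∧
      toI (c w) i s0 := by
    funext w
    apply propext
    constructor
    · intro h
      exact ⟨_, fun k => rfl, h⟩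
    · rintro ⟨s0, h1, h2⟩
      have : s w = s0 := funext h1
      rw [this]
      exact h2
  rw [e]
  refine Measurable.exists fun s0 => Measurable.and (Measurable.forall fun k => ?_) ?_
  · exact measurableSet_setOfPred.1 (hs k (measurableSet_singleton (s0 k)))
  · exact measurableSet_setOfPred.1 (hc (measurableSet_rel i s0))

theorem m_eq {u v : W → ℕ} (hu : Measurable u) (hv : Measurable v) :
    Measurable fun w => u w = v w := by
  have e : (fun w => u w = v w) = fun w => ∃ p : ℕ, u w = p ∧ v w = p := by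
    funext w
    apply propext
    constructor
    · intro h
      exact ⟨_, rfl, h.symm⟩
    · rintro ⟨p, h1, h2⟩
      rw [h1, h2]
  rw [e]
  refine Measurable.exists fun p => Measurable.and ?_ ?_
  · exact measurableSet_setOfPred.1 (hu (measurableSet_singleton p))
  · exact measurableSet_setOfPred.1 (hv (measurableSet_singleton p))

theorem m_app {g : W → ℕ → ℕ} (hg : ∀ y, Measurable fun w => g w y) {u : W → ℕ}
    (hu : Measurable u) : Measurable fun w => g w (u w) := by
  refine measurable_to_countable' fun k => ?_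
  have e : (fun w => g w (u w)) ⁻¹' {k} = ⋃ m : ℕ, (u ⁻¹' {m}) ∩ ((fun w => g w m) ⁻¹' {k}) := by
    ext w
    simp
  rw [e]
  exact MeasurableSet.iUnion fun m => (hu (measurableSet_singleton m)).inter
    (hg m (measurableSet_singleton k))

theorem m_ciso {c d : W → Code a} (hc : Measurable c) (hd : Measurable d) {g : W → ℕ → ℕ}
    (hg : ∀ y, Measurable fun w => g w y) {x : W → ℕ} (hx : Measurable x) :
    Measurable fun w => CIso (toI (c w)) (toI (d w)) (g w) (x w) := by
  have e : (fun w => CIso (toI (c w)) (toI (d w)) (g w) (x w)) = fun w =>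
      (∀ y z, Conn (toI (c w)) (x w) y → Conn (toI (c w)) (x w) z → g w y = g w z → y = z) ∧
      (∀ y, Conn (toI (c w)) (x w) y → Conn (toI (d w)) (g w (x w)) (g w y)) ∧
      (∀ y, Conn (toI (d w)) (g w (x w)) y → ∃ z, Conn (toI (c w)) (x w) z ∧ g w z = y) ∧
      (∀ i, ∀ t : Fin (a i) → ℕ, (∀ k, Conn (toI (c w)) (x w) (t k)) →
        (toI (c w) i t ↔ toI (d w) i (fun k => g w (t k)))) := by
    funext w
    apply propext
    constructor
    · intro h
      exact ⟨h.inj, h.map, h.surj, h.rel⟩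
    · rintro ⟨h1, h2, h3, h4⟩
      exact ⟨h1, h2, h3, h4⟩
  rw [e]
  refine Measurable.and ?_ (Measurable.and ?_ (Measurable.and ?_ ?_))
  · refine Measurable.forall fun y => Measurable.forall fun z => Measurable.imp ?_
      (Measurable.imp ?_ (Measurable.imp ?_ measurable_const))
    · exact m_conn hc hx measurable_const
    · exact m_conn hc hx measurable_const
    · exact m_eq (hg y) (hg z)
  · refine Measurable.forall fun y => Measurable.imp ?_ ?_
    · exact m_conn hc hx measurable_const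
    · exact m_conn hd (m_app hg hx) (hg y)
  · refine Measurable.forall fun y => Measurable.imp ?_ (Measurable.exists fun z =>
      Measurable.and ?_ ?_)
    · exact m_conn hd (m_app hg hx) measurable_const
    · exact m_conn hc hx measurable_const
    · exact m_eq (hg z) measurable_const
  · refine Measurable.forall fun i => Measurable.forall fun t => Measurable.imp
      (Measurable.forall fun k => ?_) (Measurable.iff ?_ ?_)
    · exact m_conn hc hx measurable_const
    · exact m_rel hc i fun k => measurable_const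
    · exact m_rel hd i fun k => hg (t k)

end meas

theorem PE_ana [Countable Idx] : AnalyticSet {q : (Code a × ℕ) × (Code a × ℕ) | PE q.1 q.2} := by
  have i1 : BorelSpace (Code a × ℕ) := inferInstance
  have i2 : SecondCountableTopology (Code a × ℕ) := inferInstance
  have i3 : OpensMeasurableSpace ((Code a × ℕ) × (Code a × ℕ)) := inferInstance
  let S : Set (((Code a × ℕ) × (Code a × ℕ)) × (ℕ → ℕ)) :=
    {w | CIso (toI w.1.1.1) (toI w.1.2.1) w.2 w.1.1.2 ∧
      Conn (toI w.1.2.1) (w.2 w.1.1.2) w.1.2.2}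
  have h1 : Measurable fun w : ((Code a × ℕ) × (Code a × ℕ)) × (ℕ → ℕ) => w.1.1.1 := by fun_prop
  have h2 : Measurable fun w : ((Code a × ℕ) × (Code a × ℕ)) × (ℕ → ℕ) => w.1.2.1 := by fun_prop
  have h3 : Measurable fun w : ((Code a × ℕ) × (Code a × ℕ)) × (ℕ → ℕ) => w.1.1.2 := by fun_prop
  have h4 : Measurable fun w : ((Code a × ℕ) × (Code a × ℕ)) × (ℕ → ℕ) => w.1.2.2 := by fun_prop
  have h5 : ∀ y, Measurable fun w : ((Code a × ℕ) × (Code a × ℕ)) × (ℕ → ℕ) => w.2 y :=
    fun y => by fun_prop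
  have hS : MeasurableSet S := by
    refine measurableSet_setOfPred.2 (Measurable.and ?_ ?_)
    · exact m_ciso h1 h2 h5 h3
    · exact m_conn h2 (m_app h5 h3) h4
  have h := hS.analyticSet_image (f := Prod.fst) measurable_fst
  have e1 : Prod.fst '' S = {q : (Code a × ℕ) × (Code a × ℕ) | PE q.1 q.2} := by
    ext q
    constructor
    · rintro ⟨⟨q', g⟩, ⟨h1, h2⟩, rfl⟩
      exact ⟨g, h1, h2⟩
    · rintro ⟨g, h1, h2⟩
      exact ⟨(q, g), ⟨h1, h2⟩, rfl⟩
  rwa [e1] at h

/-- `c` is a disjoint union of components isomorphic to those of the listed elements. -/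
def Gam (l : ℕ → Code a × ℕ) (c : Code a) : Prop :=
  ∃ v : ℕ → ℕ, (∀ j, CEq (toI c) (v j) (toI (l j).1) (l j).2) ∧
    (∀ i j, Conn (toI c) (v i) (v j) → i = j) ∧ ∀ u, ∃ j, Conn (toI c) (v j) u

theorem Gam_ana [Countable Idx] : AnalyticSet {q : (ℕ → Code a × ℕ) × Code a | Gam q.1 q.2} := by
  have h1 : PolishSpace (Code a) := inferInstance
  have h2 : PolishSpace (Code a × ℕ) := inferInstance
  have h3 : PolishSpace (ℕ → Code a × ℕ) := inferInstance
  have h4 : PolishSpace (ℕ → ℕ) := inferInstance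
  have h5 : PolishSpace (((ℕ → Code a × ℕ) × Code a) × (ℕ → ℕ)) := inferInstance
  have h6 : BorelSpace (Code a × ℕ) := inferInstance
  have h7 : BorelSpace (ℕ → Code a × ℕ) := inferInstance
  have h8 : BorelSpace ((ℕ → Code a × ℕ) × Code a) := inferInstance
  have h9 : BorelSpace (((ℕ → Code a × ℕ) × Code a) × (ℕ → ℕ)) := inferInstance
  have h1 : AnalyticSet {w : ((ℕ → Code a × ℕ) × Code a) × (ℕ → ℕ) |
      (∀ j, CEq (toI w.1.2) (w.2 j) (toI (w.1.1 j).1) (w.1.1 j).2)} := by
    have e : {w : ((ℕ → Code a × ℕ) × Code a) × (ℕ → ℕ) |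
        (∀ j, CEq (toI w.1.2) (w.2 j) (toI (w.1.1 j).1) (w.1.1 j).2)} = ⋂ j : ℕ,
        (fun w : ((ℕ → Code a × ℕ) × Code a) × (ℕ → ℕ) => ((w.1.2, w.2 j), w.1.1 j)) ⁻¹'
          {q : (Code a × ℕ) × (Code a × ℕ) | PE q.1 q.2} := by
      ext w
      simp only [mem_ofPred_eq, mem_iInter, mem_preimage]
      rfl
    rw [e]
    exact AnalyticSet.iInter fun j => PE_ana.preimage (by fun_prop)
  have hm : Measurable fun w : ((ℕ → Code a × ℕ) × Code a) × (ℕ → ℕ) => w.1.2 := by fun_prop
  have hv : ∀ i, Measurable fun w : ((ℕ → Code a × ℕ) × Code a) × (ℕ → ℕ) => w.2 i :=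
    fun i => by fun_prop
  have h2 : MeasurableSet {w : ((ℕ → Code a × ℕ) × Code a) × (ℕ → ℕ) |
      (∀ i j, Conn (toI w.1.2) (w.2 i) (w.2 j) → i = j) ∧
      ∀ u, ∃ j, Conn (toI w.1.2) (w.2 j) u} := by
    refine measurableSet_setOfPred.2 (Measurable.and ?_ ?_)
    · refine Measurable.forall fun i => Measurable.forall fun j => Measurable.imp ?_
        measurable_const
      exact m_conn hm (hv i) (hv j)
    · refine Measurable.forall fun u => Measurable.exists fun j => ?_
      exact m_conn hm (hv j) measurable_const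
  have h3 := Pool.Agent.H579R3.SV.ana_inter h1 h2.analyticSet
  have h4 := h3.image_of_continuous (f := Prod.fst) continuous_fst
  have e : Prod.fst '' ({w : ((ℕ → Code a × ℕ) × Code a) × (ℕ → ℕ) |
      (∀ j, CEq (toI w.1.2) (w.2 j) (toI (w.1.1 j).1) (w.1.1 j).2)} ∩
      {w : ((ℕ → Code a × ℕ) × Code a) × (ℕ → ℕ) |
      (∀ i j, Conn (toI w.1.2) (w.2 i) (w.2 j) → i = j) ∧
      ∀ u, ∃ j, Conn (toI w.1.2) (w.2 j) u}) =
      {q : (ℕ → Code a × ℕ) × Code a | Gam q.1 q.2} := by
    ext q
    constructor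
    · rintro ⟨⟨q', v⟩, ⟨h1, h2⟩, rfl⟩
      exact ⟨v, h1, h2⟩
    · rintro ⟨v, h1, h2⟩
      exact ⟨(q, v), ⟨h1, h2⟩, rfl⟩
  rwa [e] at h4

theorem Gam_glue {l l' : ℕ → Code a × ℕ} {c c' : Code a} (h : Gam l c) (h' : Gam l' c')
    (hl : ∀ j, PE (l j) (l' j)) : GIso (toI c) (toI c') := by
  classical
  have key : ∀ {l : ℕ → Code a × ℕ} {c : Code a}, Gam l c → ∃ e : ℕ ≃ Comp (toI c),
      ∀ j, CEq (toI c) (e j).out (toI (l j).1) (l j).2 := by
    rintro l c ⟨v, h1, h2, h3⟩
    refine ⟨Equiv.ofBijective (fun j => Quotient.mk (compSetoid (toI c)) (v j)) ⟨?_, ?_⟩, ?_⟩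
    · intro i j hij
      exact h2 i j ((Quotient.eq (r := compSetoid (toI c))).1 hij)
    · intro q
      obtain ⟨j, hj⟩ := h3 q.out
      refine ⟨j, ?_⟩
      rw [← Quotient.out_eq q]
      exact Quotient.sound hj
    · intro j
      have h4 : Conn (toI c) (Quotient.mk (compSetoid (toI c)) (v j)).out (v j) :=
        Quotient.mk_out (s := compSetoid (toI c)) (v j)
      exact (CEq.of_conn h4).trans (h1 j)
  obtain ⟨e, he⟩ := key h
  obtain ⟨e', he'⟩ := key h'
  refine glue (e.symm.trans e') fun q => ?_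
  obtain ⟨j, rfl⟩ := e.surjective q
  have h1 : (e.symm.trans e') (e j) = e' j := by simp
  rw [h1]
  exact (he j).trans ((hl j).trans (he' j).symm)

theorem Gam_same {l l' : ℕ → Code a × ℕ} {c c' : Code a} (h : Gam l c) (h' : Gam l' c')
    (hc : GIso (toI c) (toI c')) : JJ PE l l' := by
  have key : ∀ {l l' : ℕ → Code a × ℕ} {c c' : Code a}, Gam l c → Gam l' c' →
      GIso (toI c) (toI c') → ∀ i, ∃ j, PE (l i) (l' j) := by
    rintro l l' c c' ⟨v, h1, -, -⟩ ⟨v', h1', -, h3'⟩ ⟨g, hg⟩ i
    obtain ⟨j, hj⟩ := h3' (g (v i))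
    refine ⟨j, ?_⟩
    exact (h1 i).symm.trans ((CEq.of_ciso (GIso.ciso g hg (v i))).trans
      ((CEq.of_conn hj.symm).trans (h1' j)))
  refine ⟨key h h' hc, fun j => ?_⟩
  obtain ⟨i, hi⟩ := key h' h hc.symm j
  exact ⟨i, CEq.symm hi⟩

theorem Gam_comp {c : Code a} (h : Infinite (Comp (toI c))) :
    ∃ v : ℕ → ℕ, Gam (fun j => (c, v j)) c ∧ (∀ i j, Conn (toI c) (v i) (v j) → i = j) ∧
      ∀ u, ∃ j, Conn (toI c) (v j) u := by
  classical
  have hc : Countable (Comp (toI c)) := inferInstance
  obtain ⟨e⟩ : Nonempty (ℕ ≃ Comp (toI c)) := nonempty_equiv_of_countable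
  have h2 : ∀ i j, Conn (toI c) (e i).out (e j).out → i = j := by
    intro i j hij
    apply e.injective
    rw [← Quotient.out_eq (e i), ← Quotient.out_eq (e j)]
    exact Quotient.sound hij
  have h3 : ∀ u, ∃ j, Conn (toI c) (e j).out u := by
    intro u
    refine ⟨e.symm (Quotient.mk (compSetoid (toI c)) u), ?_⟩
    rw [e.apply_symm_apply]
    exact Quotient.mk_out (s := compSetoid (toI c)) u
  exact ⟨fun j => (e j).out, ⟨fun j => (e j).out, fun j => CEq.refl _ _, h2, h3⟩, h2, h3⟩

/-- Sums exist. -/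
theorem Gam_ex {l : ℕ → Code a × ℕ} (hl : ∀ i j, NullEq (toI (l i).1) (toI (l j).1)) :
    ∃ c, Gam l c := by
  classical
  let U : Type := {p : ℕ × ℕ // Conn (toI (l p.1).1) (l p.1).2 p.2}
  let SU : Interp a U := fun i t => ∃ j, (∀ k, (t k).1.1 = j) ∧
    toI (l j).1 i (fun k => (t k).1.2)
  let u0 : ℕ → U := fun j => ⟨(j, (l j).2), Conn.refl _ _⟩
  have hinf : Infinite U := Infinite.of_injective u0 fun i j h => by
    have := congrArg (fun u : U => u.1.1) h
    exact this
  obtain ⟨e⟩ : Nonempty (ℕ ≃ U) := nonempty_equiv_of_countable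
  have hidx : ∀ {u w : U}, Conn SU u w → u.1.1 = w.1.1 := by
    intro u w h
    induction h with
    | refl => rfl
    | tail _ h ih =>
      obtain ⟨i, t, ⟨j, h1, -⟩, ⟨k, rfl⟩, ⟨m, rfl⟩⟩ := h
      rw [ih, h1, h1]
  have hcon : ∀ (j : ℕ) (y : ℕ) (hy : Conn (toI (l j).1) (l j).2 y),
      Conn SU (u0 j) ⟨(j, y), hy⟩ := by
    intro j y hy
    induction hy with
    | refl => exact Conn.refl _ _
    | @tail x z hx hxz ih =>
      refine (ih : Conn SU (u0 j) ⟨(j, x), hx⟩).trans (Relation.ReflTransGen.single ?_)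
      obtain ⟨i, t, h1, ⟨k, hk⟩, ⟨m, hm⟩⟩ := hxz
      have h2 : ∀ k', Conn (toI (l j).1) (l j).2 (t k') := fun k' => by
        have h3 : Conn (toI (l j).1) (t k) (t k') := conn_tuple h1 k k'
        rw [hk] at h3
        exact Conn.trans hx h3
      refine ⟨i, fun k' => ⟨(j, t k'), h2 k'⟩, ⟨j, fun _ => rfl, h1⟩, ⟨k, ?_⟩, ⟨m, ?_⟩⟩
      · exact Subtype.ext (Prod.ext rfl hk)
      · exact Subtype.ext (Prod.ext rfl hm)
  have hciso : ∀ j, CIso SU (toI (l j).1) (fun u : U => u.1.2) (u0 j) := by
    intro j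
    refine ⟨?_, ?_, ?_, ?_⟩
    · intro x y hx hy h
      exact Subtype.ext (Prod.ext ((hidx hx).symm.trans (hidx hy)) h)
    · intro x hx
      have h1 := x.2
      have h2 : x.1.1 = j := (hidx hx).symm
      show Conn (toI (l j).1) (l j).2 x.1.2
      rw [← h2]
      exact h1
    · intro y hy
      exact ⟨⟨(j, y), hy⟩, hcon j y hy, rfl⟩
    · intro i t ht
      have h2 : ∀ k, (t k).1.1 = j := fun k => (hidx (ht k)).symm
      constructor
      · rintro ⟨j', h3, h4⟩
        rcases isEmpty_or_nonempty (Fin (a i)) with hE | ⟨⟨k0⟩⟩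
        · exact (hl j' j i hE _ _).1 h4
        · have : j' = j := (h3 k0).symm.trans (h2 k0)
          rw [this] at h4
          exact h4
      · intro h
        exact ⟨j, h2, h⟩
  have hpc := fun u : ℕ => pull_ciso SU e e.injective (fun _ x _ => e.surjective x) u
  have hpn := fun u v : ℕ => pull_conn SU e e.injective (fun _ x _ => e.surjective x) u v
  refine ⟨ofI (pull SU e), ?_⟩
  unfold Gam
  rw [toI_ofI]
  refine ⟨fun j => e.symm (u0 j), fun j => ?_, fun i j h => ?_, fun u => ?_⟩
  · have h1 := CEq.of_ciso (hpc (e.symm (u0 j)))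
    rw [e.apply_symm_apply] at h1
    exact h1.trans ⟨_, hciso j, Conn.refl _ _⟩
  · rw [hpn, e.apply_symm_apply, e.apply_symm_apply] at h
    exact hidx h
  · refine ⟨(e u).1.1, ?_⟩
    rw [hpn, e.apply_symm_apply]
    have h1 := hcon (e u).1.1 (e u).1.2 (e u).2
    exact h1

end Pool.Agent.U105.LB
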