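import Pool.Agent.U105.LB.Pc

set_option autoImplicit false

/-!
# Decompositions of structures into blocks

A decomposed structure is a structure on `ℕ` with an equivalence relation, whose classes are called
blocks, and a colouring of the elements, such that the relations between different blocks depend
only on the blocks and the colours of the entries.
-/

namespace Pool.Agent.U105.LB

open Set MeasureTheory Pool.Agent.H623R2.VE
open Pool.Agent.H579R3.SV (silver polish_cantor not_countable ana_inter)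
open Pool.Agent.N649.WL (Dc JJ)

variable {Idx : Type} {a : Idx → ℕ}

/-- Structures with a binary relation and a colouring. -/
abbrev DS {Idx : Type} (a : Idx → ℕ) : Type := Code a × (ℕ → ℕ → Bool) × (ℕ → ℕ)

/-- Structures of the blocks: relations between the blocks for all possible colours. -/
abbrev Ys {Idx : Type} (a : Idx → ℕ) : Type := (i : Idx) → (Fin (a i) → ℕ × ℕ) → Bool

/-- The block of an element. -/
def Blk (p : DS a × ℕ) : Set ℕ := {w | p.1.2.1 p.2 w = true}

/-- Isomorphism of blocks. -/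
def BIs (p q : DS a × ℕ) (g : ℕ → ℕ) : Prop :=
  BijOn g (Blk p) (Blk q) ∧
  (∀ (i : Idx) (t : Fin (a i) → ℕ), (∀ k, t k ∈ Blk p) → p.1.1 i t = q.1.1 i (fun k => g (t k))) ∧
  ∀ u ∈ Blk p, q.1.2.2 (g u) = p.1.2.2 u

/-- The blocks are isomorphic. -/
def BE (p q : DS a × ℕ) : Prop := ∃ g, BIs p q g

theorem BIs.id (p : DS a × ℕ) : BIs p p (fun w => w) := ⟨bijOn_id _, fun _ _ _ => rfl, fun _ _ => rfl⟩

theorem BIs.comp {p q r : DS a × ℕ} {g g' : ℕ → ℕ} (h : BIs p q g) (h' : BIs q r g') :
    BIs p r (fun w => g' (g w)) := by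
  refine ⟨h'.1.comp h.1, fun i t ht => ?_, fun u hu => ?_⟩
  · rw [h.2.1 i t ht, h'.2.1 i _ fun k => h.1.mapsTo (ht k)]
  · rw [h'.2.2 _ (h.1.mapsTo hu), h.2.2 u hu]

theorem BIs.inverse {p q : DS a × ℕ} {g : ℕ → ℕ} (h : BIs p q g) : ∃ g', BIs q p g' := by
  classical
  obtain ⟨h1, h2, h3⟩ := h
  have hs : ∀ z ∈ Blk q, ∃ u ∈ Blk p, g u = z := fun z hz => h1.surjOn hz
  choose! g' hg1 hg2 using hs
  refine ⟨g', ⟨fun z hz => hg1 z hz, fun z hz z' hz' e => ?_, fun u hu => ?_⟩, fun i t ht => ?_,
    fun u hu => ?_⟩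
  · rw [← hg2 z hz, ← hg2 z' hz', e]
  · refine ⟨g u, h1.mapsTo hu, ?_⟩
    exact h1.injOn (hg1 _ (h1.mapsTo hu)) hu (hg2 _ (h1.mapsTo hu))
  · rw [h2 i (fun k => g' (t k)) fun k => hg1 _ (ht k)]
    have e : (fun k => g (g' (t k))) = t := funext fun k => hg2 _ (ht k)
    rw [e]
  · rw [← h3 _ (hg1 u hu), hg2 u hu]

theorem BE_equiv : Equivalence (BE (a := a)) where
  refl p := ⟨_, BIs.id p⟩
  symm := by
    rintro p q ⟨g, h⟩
    exact h.inverse
  trans := by
    rintro p q r ⟨g, h⟩ ⟨g', h'⟩
    exact ⟨_, h.comp h'⟩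

/-- The relation of the structure is an equivalence relation. -/
structure Eqr (x : DS a) : Prop where
  refl : ∀ u, x.2.1 u u = true
  symm : ∀ u w, x.2.1 u w = true → x.2.1 w u = true
  trans : ∀ u w z, x.2.1 u w = true → x.2.1 w z = true → x.2.1 u z = true

theorem Eqr.blk {x : DS a} (hx : Eqr x) {u w : ℕ} (h : x.2.1 u w = true) :
    Blk (x, u) = Blk (x, w) := by
  ext z
  exact ⟨fun hz => hx.trans _ _ _ (hx.symm _ _ h) hz, fun hz => hx.trans _ _ _ h hz⟩

/-- The blocks of equivalent elements are isomorphic. -/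
theorem Eqr.be {x : DS a} (hx : Eqr x) {u w : ℕ} (h : x.2.1 u w = true) : BE (x, u) (x, w) := by
  refine ⟨fun z => z, ?_, fun _ _ _ => rfl, fun _ _ => rfl⟩
  rw [hx.blk h]
  exact bijOn_id _

/-- Isomorphism of decomposed structures. -/
def DIs (x y : DS a) (σ : Equiv.Perm ℕ) : Prop :=
  (∀ (i : Idx) (t : Fin (a i) → ℕ), x.1 i t = y.1 i (fun k => σ (t k))) ∧
  (∀ u w, y.2.1 (σ u) (σ w) = x.2.1 u w) ∧ ∀ u, y.2.2 (σ u) = x.2.2 u

def DIso (x y : DS a) : Prop := ∃ σ, DIs x y σ

theorem DIso.symm {x y : DS a} (h : DIso x y) : DIso y x := by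
  obtain ⟨σ, h1, h2, h3⟩ := h
  refine ⟨σ.symm, fun i t => ?_, fun u w => ?_, fun u => ?_⟩
  · rw [h1]
    have e : (fun k => σ (σ.symm (t k))) = t := funext fun k => σ.apply_symm_apply _
    rw [e]
  · rw [← h2, σ.apply_symm_apply, σ.apply_symm_apply]
  · rw [← h3, σ.apply_symm_apply]

theorem DIs.blk {x y : DS a} {σ : Equiv.Perm ℕ} (h : DIs x y σ) (u : ℕ) :
    BE (x, u) (y, σ u) := by
  refine ⟨σ, ⟨fun w hw => ?_, σ.injective.injOn, fun w hw => ?_⟩, fun i t _ => h.1 i t,
    fun w _ => h.2.2 w⟩
  · show y.2.1 (σ u) (σ w) = true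
    rw [h.2.1]
    exact hw
  · refine ⟨σ.symm w, ?_, σ.apply_symm_apply w⟩
    show x.2.1 u (σ.symm w) = true
    rw [← h.2.1, σ.apply_symm_apply]
    exact hw

/-- `x` is the sum over `p.1` of the blocks `p.2 j`. -/
def Gm (p : Ys a × (ℕ → DS a × ℕ)) (x : DS a) : Prop :=
  Eqr x ∧ ∃ v : ℕ → ℕ, (∀ j, BE (x, v j) (p.2 j)) ∧
    (∀ i j, x.2.1 (v i) (v j) = true → i = j) ∧ (∀ u, ∃ j, x.2.1 (v j) u = true) ∧
    ∀ (i : Idx) (s t : Fin (a i) → ℕ), (∀ k, x.2.1 (v (s k)) (t k) = true) →
      (∃ k l, s k ≠ s l) → x.1 i t = p.1 i (fun k => (s k, x.2.2 (t k)))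

section meas

variable {W : Type*} [MeasurableSpace W] [Countable Idx]

theorem m_blk {x : W → DS a} (hx : Measurable x) {u v : W → ℕ} (hu : Measurable u)
    (hv : Measurable v) : Measurable fun w => (x w).2.1 (u w) (v w) = true := by
  have e : (fun w => (x w).2.1 (u w) (v w) = true) = fun w => ∃ p q : ℕ, u w = p ∧ v w = q ∧
      (x w).2.1 p q = true := by
    funext w
    apply propext
    constructor
    · intro h
      exact ⟨_, _, rfl, rfl, h⟩
    · rintro ⟨p, q, rfl, rfl, h⟩
      exact h
  rw [e]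
  refine Measurable.exists fun p => Measurable.exists fun q => Measurable.and ?_
    (Measurable.and ?_ ?_)
  · exact measurableSet_setOfPred.1 (hu (measurableSet_singleton p))
  · exact measurableSet_setOfPred.1 (hv (measurableSet_singleton q))
  · have h1 : Measurable fun w => (x w).2.1 p q :=
      (measurable_pi_apply q).comp ((measurable_pi_apply p).comp
        (measurable_fst.comp (measurable_snd.comp hx)))
    exact measurableSet_setOfPred.1 (h1 (measurableSet_singleton true))

theorem m_col {x : W → DS a} (hx : Measurable x) {u : W → ℕ} (hu : Measurable u) :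
    Measurable fun w => (x w).2.2 (u w) := by
  refine m_app (g := fun w => (x w).2.2) (fun y => ?_) hu
  exact (measurable_pi_apply y).comp (measurable_snd.comp (measurable_snd.comp hx))

theorem m_tup {x : W → DS a} (hx : Measurable x) (i : Idx) {s : W → Fin (a i) → ℕ}
    (hs : ∀ k, Measurable fun w => s w k) : Measurable fun w => (x w).1 i (s w) = true :=
  m_rel (measurable_fst.comp hx) i hs

theorem m_bis {p q : W → DS a × ℕ} (hp : Measurable p) (hq : Measurable q) {g : W → ℕ → ℕ}
    (hg : ∀ y, Measurable fun w => g w y) : Measurable fun w => BIs (p w) (q w) (g w) := by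
  have e : (fun w => BIs (p w) (q w) (g w)) = fun w =>
      (((∀ u, (p w).1.2.1 (p w).2 u = true → (q w).1.2.1 (q w).2 (g w u) = true) ∧
      (∀ u z, (p w).1.2.1 (p w).2 u = true → (p w).1.2.1 (p w).2 z = true → g w u = g w z →
        u = z) ∧
      (∀ z, (q w).1.2.1 (q w).2 z = true → ∃ u, (p w).1.2.1 (p w).2 u = true ∧ g w u = z)) ∧
      (∀ (i : Idx) (t : Fin (a i) → ℕ), (∀ k, (p w).1.2.1 (p w).2 (t k) = true) →
        ((p w).1.1 i t = true ↔ (q w).1.1 i (fun k => g w (t k)) = true)) ∧
      ∀ u, (p w).1.2.1 (p w).2 u = true → (q w).1.2.2 (g w u) = (p w).1.2.2 u) := by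
    funext w
    apply propext
    constructor
    · rintro ⟨⟨h1, h2, h3⟩, h4, h5⟩
      refine ⟨⟨fun u hu => h1 hu, fun u z hu hz e => h2 hu hz e, fun z hz => ?_⟩,
        fun i t ht => ?_, h5⟩
      · obtain ⟨u, hu, e⟩ := h3 hz
        exact ⟨u, hu, e⟩
      · rw [h4 i t ht]
    · rintro ⟨⟨h1, h2, h3⟩, h4, h5⟩
      refine ⟨⟨fun u hu => h1 u hu, fun u hu z hz e => h2 u z hu hz e, fun z hz => ?_⟩,
        fun i t ht => ?_, h5⟩
      · obtain ⟨u, hu, e⟩ := h3 z hz
        exact ⟨u, hu, e⟩
      · rw [Bool.eq_iff_iff]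
        exact h4 i t ht
  rw [e]
  have p1 : Measurable fun w => (p w).1 := measurable_fst.comp hp
  have p2 : Measurable fun w => (p w).2 := measurable_snd.comp hp
  have q1 : Measurable fun w => (q w).1 := measurable_fst.comp hq
  have q2 : Measurable fun w => (q w).2 := measurable_snd.comp hq
  refine Measurable.and (Measurable.and ?_ (Measurable.and ?_ ?_)) (Measurable.and ?_ ?_)
  · refine Measurable.forall fun u => Measurable.imp ?_ ?_
    · exact m_blk p1 p2 measurable_const
    · exact m_blk q1 q2 (hg u)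
  · refine Measurable.forall fun u => Measurable.forall fun z => Measurable.imp ?_
      (Measurable.imp ?_ (Measurable.imp ?_ measurable_const))
    · exact m_blk p1 p2 measurable_const
    · exact m_blk p1 p2 measurable_const
    · exact m_eq (hg u) (hg z)
  · refine Measurable.forall fun z => Measurable.imp ?_ (Measurable.exists fun u =>
      Measurable.and ?_ ?_)
    · exact m_blk q1 q2 measurable_const
    · exact m_blk p1 p2 measurable_const
    · exact m_eq (hg u) measurable_const
  · refine Measurable.forall fun i => Measurable.forall fun t => Measurable.imp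
      (Measurable.forall fun k => ?_) (Measurable.iff ?_ ?_)
    · exact m_blk p1 p2 measurable_const
    · exact m_tup p1 i fun k => measurable_const
    · exact m_tup q1 i fun k => hg (t k)
  · refine Measurable.forall fun u => Measurable.imp ?_ ?_
    · exact m_blk p1 p2 measurable_const
    · exact m_eq (m_col q1 (hg u)) (m_col p1 measurable_const)

theorem m_eqr {x : W → DS a} (hx : Measurable x) : Measurable fun w => Eqr (x w) := by
  have e : (fun w => Eqr (x w)) = fun w => (∀ u, (x w).2.1 u u = true) ∧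
      (∀ u z, (x w).2.1 u z = true → (x w).2.1 z u = true) ∧
      ∀ u z y, (x w).2.1 u z = true → (x w).2.1 z y = true → (x w).2.1 u y = true := by
    funext w
    apply propext
    exact ⟨fun h => ⟨h.1, h.2, h.3⟩, fun h => ⟨h.1, h.2.1, h.2.2⟩⟩
  rw [e]
  refine Measurable.and ?_ (Measurable.and ?_ ?_)
  · exact Measurable.forall fun u => m_blk hx measurable_const measurable_const
  · exact Measurable.forall fun u => Measurable.forall fun z =>
      Measurable.imp (m_blk hx measurable_const measurable_const)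
        (m_blk hx measurable_const measurable_const)
  · exact Measurable.forall fun u => Measurable.forall fun z => Measurable.forall fun y =>
      Measurable.imp (m_blk hx measurable_const measurable_const)
        (Measurable.imp (m_blk hx measurable_const measurable_const)
          (m_blk hx measurable_const measurable_const))

theorem m_ys {y : W → Ys a} (hy : Measurable y) (i : Idx) {s : W → Fin (a i) → ℕ × ℕ}
    (hs : ∀ k, Measurable fun w => s w k) : Measurable fun w => y w i (s w) = true := by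
  have e : (fun w => y w i (s w) = true) = fun w => ∃ s0 : Fin (a i) → ℕ × ℕ,
      (∀ k, s w k = s0 k) ∧ y w i s0 = true := by
    funext w
    apply propext
    constructor
    · intro h
      exact ⟨_, fun k => rfl, h⟩
    · rintro ⟨s0, h1, h2⟩
      have : s w = s0 := funext h1
      rw [this]
      exact h2
  rw [e]
  refine Measurable.exists fun s0 => Measurable.and (Measurable.forall fun k => ?_) ?_
  · exact measurableSet_setOfPred.1 (hs k (measurableSet_singleton (s0 k)))
  · have h1 : Measurable fun w => y w i s0 :=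
      (measurable_pi_apply s0).comp ((measurable_pi_apply i).comp hy)
    exact measurableSet_setOfPred.1 (h1 (measurableSet_singleton true))

end meas

section inst

theorem mkPol (α : Type*) [TopologicalSpace α] [TopologicalSpace.IsCompletelyMetrizableSpace α]
    [SecondCountableTopology α] : PolishSpace α := {}

theorem polProd {α β : Type*} [TopologicalSpace α] [PolishSpace α] [TopologicalSpace β]
    [PolishSpace β] : PolishSpace (α × β) := inferInstance

theorem polPi {ι : Type*} [Countable ι] {α : ι → Type*} [∀ i, TopologicalSpace (α i)]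
    [∀ i, PolishSpace (α i)] : PolishSpace (∀ i, α i) := inferInstance

variable [Countable Idx]

theorem i_pol : PolishSpace (DS a) := mkPol _

theorem i_polY : PolishSpace (Ys a) := mkPol _

theorem i_polX : PolishSpace (DS a × ℕ) := by
  have := i_pol (a := a)
  exact polProd

theorem i_polL : PolishSpace (ℕ → DS a × ℕ) := by
  have := i_polX (a := a)
  exact polPi

theorem i_polA : PolishSpace (Ys a × (ℕ → DS a × ℕ)) := by
  have := i_polY (a := a)
  have := i_polL (a := a)
  exact polProd

theorem i_polG : PolishSpace ((Ys a × (ℕ → DS a × ℕ)) × DS a) := by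
  have := i_polA (a := a)
  have := i_pol (a := a)
  exact polProd

theorem i_polGG : PolishSpace (((Ys a × (ℕ → DS a × ℕ)) × DS a) × (ℕ → ℕ)) := by
  have := i_polG (a := a)
  have : PolishSpace (ℕ → ℕ) := inferInstance
  exact polProd

theorem i_polXX : PolishSpace ((DS a × ℕ) × (DS a × ℕ)) := by
  have := i_polX (a := a)
  exact polProd

theorem i_bor : BorelSpace (DS a) := by
  have h1 : BorelSpace (Code a) := inferInstance
  have h0 : BorelSpace (ℕ → Bool) := inferInstance
  have h2 : BorelSpace (ℕ → ℕ → Bool) := inferInstance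
  have h3 : BorelSpace (ℕ → ℕ) := inferInstance
  have h4 : BorelSpace ((ℕ → ℕ → Bool) × (ℕ → ℕ)) := Prod.borelSpace
  exact Prod.borelSpace

theorem i_borX : BorelSpace (DS a × ℕ) := by
  have i2 := i_bor (a := a)
  exact Prod.borelSpace

theorem i_borL : BorelSpace (ℕ → DS a × ℕ) := by
  have i1 := i_polX (a := a)
  have i2 := i_borX (a := a)
  exact Pi.borelSpace

theorem i_borY : BorelSpace (Ys a) := by
  have h0 : ∀ i : Idx, BorelSpace ((Fin (a i) → ℕ × ℕ) → Bool) := fun i => inferInstance
  exact Pi.borelSpace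

theorem i_borA : BorelSpace (Ys a × (ℕ → DS a × ℕ)) := by
  have i1 := i_polX (a := a)
  have i2 := i_borL (a := a)
  have i3 := i_borY (a := a)
  have i4 := i_polL (a := a)
  have i5 := i_polY (a := a)
  exact Prod.borelSpace

theorem i_borG : BorelSpace ((Ys a × (ℕ → DS a × ℕ)) × DS a) := by
  have i1 := i_polA (a := a)
  have i2 := i_borA (a := a)
  have i3 := i_bor (a := a)
  have i4 := i_pol (a := a)
  exact Prod.borelSpace

end inst

theorem BE_ana [Countable Idx] : AnalyticSet {q : (DS a × ℕ) × (DS a × ℕ) | BE q.1 q.2} := by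
  have i1 := i_pol (a := a)
  have i2 := i_bor (a := a)
  have i3 := i_polX (a := a)
  have i4 := i_borX (a := a)
  have i5 := i_polXX (a := a)
  have i6 : BorelSpace ((DS a × ℕ) × (DS a × ℕ)) := Prod.borelSpace
  have i7 : PolishSpace (ℕ → ℕ) := inferInstance
  have i8 : PolishSpace (((DS a × ℕ) × (DS a × ℕ)) × (ℕ → ℕ)) := polProd
  have i9 : BorelSpace (((DS a × ℕ) × (DS a × ℕ)) × (ℕ → ℕ)) := Prod.borelSpace
  have i10 : StandardBorelSpace (((DS a × ℕ) × (DS a × ℕ)) × (ℕ → ℕ)) := inferInstance
  have hS : MeasurableSet {w : ((DS a × ℕ) × (DS a × ℕ)) × (ℕ → ℕ) |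
      BIs w.1.1 w.1.2 w.2} := by
    refine measurableSet_setOfPred.2 ?_
    exact m_bis (measurable_fst.comp measurable_fst) (measurable_snd.comp measurable_fst)
      fun y => (measurable_pi_apply y).comp measurable_snd
  have h := hS.analyticSet_image (f := Prod.fst) measurable_fst
  have e1 : Prod.fst '' {w : ((DS a × ℕ) × (DS a × ℕ)) × (ℕ → ℕ) | BIs w.1.1 w.1.2 w.2} =
      {q : (DS a × ℕ) × (DS a × ℕ) | BE q.1 q.2} := by
    ext q
    constructor
    · rintro ⟨⟨q', g⟩, h1, rfl⟩
      exact ⟨g, h1⟩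
    · rintro ⟨g, h1⟩
      exact ⟨(q, g), h1, rfl⟩
  rwa [e1] at h

theorem Gm_ana [Countable Idx] :
    AnalyticSet {q : (Ys a × (ℕ → DS a × ℕ)) × DS a | Gm q.1 q.2} := by
  have i1 := i_pol (a := a)
  have i2 := i_bor (a := a)
  have i3 := i_polX (a := a)
  have i4 := i_borX (a := a)
  have i5 := i_polL (a := a)
  have i6 := i_borL (a := a)
  have i7 := i_polY (a := a)
  have i8 := i_borY (a := a)
  have i9 := i_polA (a := a)
  have i10 := i_borA (a := a)
  have i11 := i_polG (a := a)
  have i12 := i_borG (a := a)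
  have i13 : PolishSpace (ℕ → ℕ) := inferInstance
  have i14 := i_polGG (a := a)
  have i15 : BorelSpace (((Ys a × (ℕ → DS a × ℕ)) × DS a) × (ℕ → ℕ)) := Prod.borelSpace
  have i16 := i_polXX (a := a)
  have h1 : AnalyticSet {w : ((Ys a × (ℕ → DS a × ℕ)) × DS a) × (ℕ → ℕ) |
      ∀ j, BE (w.1.2, w.2 j) (w.1.1.2 j)} := by
    have e : {w : ((Ys a × (ℕ → DS a × ℕ)) × DS a) × (ℕ → ℕ) |
        ∀ j, BE (w.1.2, w.2 j) (w.1.1.2 j)} = ⋂ j : ℕ,
        (fun w : ((Ys a × (ℕ → DS a × ℕ)) × DS a) × (ℕ → ℕ) =>
          ((w.1.2, w.2 j), w.1.1.2 j)) ⁻¹' {q : (DS a × ℕ) × (DS a × ℕ) | BE q.1 q.2} := by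
      ext w
      simp only [mem_ofPred_eq, mem_iInter, mem_preimage]
    rw [e]
    exact AnalyticSet.iInter fun j => BE_ana.preimage (by fun_prop)
  have hx : Measurable fun w : ((Ys a × (ℕ → DS a × ℕ)) × DS a) × (ℕ → ℕ) => w.1.2 :=
    measurable_snd.comp measurable_fst
  have hy : Measurable fun w : ((Ys a × (ℕ → DS a × ℕ)) × DS a) × (ℕ → ℕ) => w.1.1.1 :=
    measurable_fst.comp (measurable_fst.comp measurable_fst)
  have hv : ∀ i, Measurable fun w : ((Ys a × (ℕ → DS a × ℕ)) × DS a) × (ℕ → ℕ) => w.2 i :=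
    fun i => (measurable_pi_apply i).comp measurable_snd
  have h2 : MeasurableSet {w : ((Ys a × (ℕ → DS a × ℕ)) × DS a) × (ℕ → ℕ) |
      Eqr w.1.2 ∧ (∀ i j, w.1.2.2.1 (w.2 i) (w.2 j) = true → i = j) ∧
      (∀ u, ∃ j, w.1.2.2.1 (w.2 j) u = true) ∧
      ∀ (i : Idx) (s t : Fin (a i) → ℕ), (∀ k, w.1.2.2.1 (w.2 (s k)) (t k) = true) →
        (∃ k l, s k ≠ s l) → (w.1.2.1 i t = true ↔
          w.1.1.1 i (fun k => (s k, w.1.2.2.2 (t k))) = true)} := by
    refine measurableSet_setOfPred.2 (Measurable.and ?_ (Measurable.and ?_ (Measurable.and ?_ ?_)))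
    · exact m_eqr hx
    · refine Measurable.forall fun i => Measurable.forall fun j => Measurable.imp ?_
        measurable_const
      exact m_blk hx (hv i) (hv j)
    · refine Measurable.forall fun u => Measurable.exists fun j => ?_
      exact m_blk hx (hv j) measurable_const
    · refine Measurable.forall fun i => Measurable.forall fun s => Measurable.forall fun t =>
        Measurable.imp (Measurable.forall fun k => ?_) (Measurable.imp measurable_const
          (Measurable.iff ?_ ?_))
      · exact m_blk hx (hv (s k)) measurable_const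
      · exact m_tup hx i fun k => measurable_const
      · exact m_ys hy i fun k => measurable_const.prodMk (m_col hx measurable_const)
  have h3 := ana_inter h1 h2.analyticSet
  have h4 := h3.image_of_continuous (f := Prod.fst) continuous_fst
  refine (congrArg AnalyticSet ?_).mp h4
  ext q
  constructor
  · rintro ⟨⟨q', v⟩, ⟨h1, h2, h3, h4, h5⟩, rfl⟩
    refine ⟨h2, v, h1, h3, h4, fun i s t hs hst => ?_⟩
    rw [Bool.eq_iff_iff]
    exact h5 i s t hs hst
  · rintro ⟨h2, v, h1, h3, h4, h5⟩
    refine ⟨(q, v), ⟨h1, h2, h3, h4, fun i s t hs hst => ?_⟩, rfl⟩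
    exact Bool.eq_iff_iff.1 (h5 i s t hs hst)

end Pool.Agent.U105.LB
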