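import Pool.Agent.U105.LB.Asm

set_option autoImplicit false

/-!
# The final forms
-/

namespace Pool.Agent.U105.LB

open Set MeasureTheory Pool.Agent.H623R2.VE Pool.Agent.H579R3.VP Pool.Agent.H579R3.VR
open Pool.Agent.N649.WL (Dc LE JJ)
open Pool.Agent.R529.AM (Linked piece SamePiece samePiece_iff mem_piece_iff iso_iff)

section labels

variable {X Y J : Type*} [TopologicalSpace X] [PolishSpace X] [MeasurableSpace X] [BorelSpace X]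
  [TopologicalSpace Y] [PolishSpace Y] [MeasurableSpace Y] [BorelSpace Y] [Countable J]

/-- **The structure theorem for labelled structures.** -/
theorem main3 [Nonempty J] (I : Equiv.Perm J → Y → Y → Prop) (hI : ∀ y, I 1 y y)
    {E : X → X → Prop} (hE : Equivalence E) (hEa : AnalyticSet {q : X × X | E q.1 q.2})
    (Z : Set X) (hZm : MeasurableSet Z) (hZi : ∀ x ∈ Z, ∀ x', E x x' → x' ∈ Z)
    (hX : ∀ C : Set X, MeasurableSet C → C ⊆ Z → (∀ x ∈ C, ∀ x', E x x' → x' ∈ C) → Dc E C)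
    {A : Set (Y × (J → X))} (hA : MeasurableSet A)
    (hinv : ∀ p ∈ A, ∀ q, LE I E p q → q ∈ A) :
    (∃ h : (ℕ → Bool) → Y × (J → X), Measurable h ∧ (∀ b, h b ∈ A) ∧
      ∀ b b', b ≠ b' → ¬ LE I E (h b) (h b')) ∨
    ∃ D : Set X, D.Countable ∧ (∀ p ∈ A, {j | ∀ d ∈ D, ¬ E d (p.2 j)}.Finite ∧
      ∀ j, p.2 j ∈ Z → ∃ d ∈ D, E d (p.2 j)) ∧
      ∀ K : Set Y, (∀ p ∈ A, p.1 ∈ K) →
        (∀ C : Set (Y × (J → ℕ)), MeasurableSet C → C ⊆ {p | p.1 ∈ K} →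
          (∀ p ∈ C, ∀ q, LE I (· = ·) p q → q ∈ C) → Dc (LE I (· = ·)) C) →
        ∃ S ⊆ A, S.Countable ∧ ∀ p ∈ A, (∀ j, ∃ d ∈ D, E d (p.2 j)) → ∃ q ∈ S, LE I E p q := by
  by_cases hperf : ∃ h : (ℕ → Bool) → Y × (J → X), Measurable h ∧ (∀ b, h b ∈ A) ∧
      ∀ b b', b ≠ b' → ¬ LE I E (h b) (h b')
  · exact Or.inl hperf
  right
  rcases gen hE hEa Z hZm hZi hX hA (fun p y z h hy => hinv (p, y) hy (p, z) ⟨1, hI p, h⟩) with
    ⟨h, h1, h2, h3⟩ | ⟨D, hD, hD2⟩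
  · exact absurd ⟨h, h1, h2, fun b b' hb hL => h3 b b' hb (LE_JJ hL)⟩ hperf
  refine ⟨D, hD, hD2, fun K hK hY => ?_⟩
  rcases dlist I hI hE {q | q.1 ∈ K} hY hA (fun p hp _ _ => hK p hp) hinv hD with h | h
  · exact absurd h hperf
  · exact h

end labels

section seq

variable {X : Type} [TopologicalSpace X] [PolishSpace X] [MeasurableSpace X] [BorelSpace X]

/-- Sequences up to permutation. -/
theorem seq3 {E : X → X → Prop} (hE : Equivalence E)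
    (hEa : AnalyticSet {q : X × X | E q.1 q.2}) (Z : Set X) (hZm : MeasurableSet Z)
    (hZi : ∀ x ∈ Z, ∀ x', E x x' → x' ∈ Z)
    (hX : ∀ C : Set X, MeasurableSet C → C ⊆ Z → (∀ x ∈ C, ∀ x', E x x' → x' ∈ C) → Dc E C)
    {A : Set (ℕ → X)} (hA : MeasurableSet A)
    (hinv : ∀ p ∈ A, ∀ q : ℕ → X, (∃ σ : Equiv.Perm ℕ, ∀ n, E (p n) (q (σ n))) → q ∈ A) :
    (∃ h : (ℕ → Bool) → ℕ → X, Measurable h ∧ (∀ b, h b ∈ A) ∧
      ∀ b b', b ≠ b' → ¬ ∃ σ : Equiv.Perm ℕ, ∀ n, E (h b n) (h b' (σ n))) ∨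
    ∃ D : Set X, D.Countable ∧ (∀ p ∈ A, {n | ∀ d ∈ D, ¬ E d (p n)}.Finite ∧
      ∀ n, p n ∈ Z → ∃ d ∈ D, E d (p n)) ∧
      ∃ S ⊆ A, S.Countable ∧ ∀ p ∈ A, (∀ n, ∃ d ∈ D, E d (p n)) →
        ∃ q ∈ S, ∃ σ : Equiv.Perm ℕ, ∀ n, E (p n) (q (σ n)) := by
  rcases main3 (Y := Unit) (J := ℕ) (fun (_ : Equiv.Perm ℕ) (_ _ : Unit) => True)
    (fun _ => trivial) hE hEa Z hZm hZi hX (A := {p : Unit × (ℕ → X) | p.2 ∈ A})
    (measurable_snd hA) (by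
      rintro p hp q ⟨σ, -, h⟩
      exact hinv _ hp _ ⟨σ, h⟩) with ⟨h, h1, h2, h3⟩ | ⟨D, hD, hD2, hD3⟩
  · left
    exact ⟨fun b => (h b).2, measurable_snd.comp h1, h2, fun b b' hb ⟨σ, hσ⟩ =>
      h3 b b' hb ⟨σ, trivial, hσ⟩⟩
  · right
    refine ⟨D, hD, fun p hp => hD2 ((), p) hp, ?_⟩
    obtain ⟨S, h1, h2, h3⟩ := hD3 univ (fun _ _ => mem_univ _) (fun C hC _ _ => dc_nat hC)
    refine ⟨Prod.snd '' S, ?_, h2.image _, fun p hp hr => ?_⟩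
    · rintro _ ⟨q, hq, rfl⟩
      exact h1 hq
    · obtain ⟨q, hq, σ, -, hσ⟩ := h3 ((), p) hp hr
      exact ⟨q.2, ⟨q, hq, rfl⟩, σ, hσ⟩

end seq

variable {a : ℕ → ℕ}

theorem pieces3 (B : Set (Code a)) (hB : MeasurableSet B)
    (hi : ∀ x y : Code a, GIso (toI x) (toI y) → x ∈ B → y ∈ B) :
    Perf GIso B ∨
    ∃ D : Set (Code a × ℕ), D.Countable ∧ (∀ n, ∀ x ∈ B, ∃ s : Finset ℕ, ∀ u, n ≤ u →
      (∃ d ∈ D, n ≤ d.2 ∧ SamePiece n x u d.1 d.2) ∨ ∃ v ∈ s, n ≤ v ∧ u ∈ piece n x v) ∧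
    ∃ S : Set (Code a), S.Countable ∧ ∀ x ∈ B, ∀ n,
      (∀ u, n ≤ u → ∃ d ∈ D, n ≤ d.2 ∧ SamePiece n x u d.1 d.2) →
      ∃ x' ∈ S, GIso (toI x) (toI x') := by
  classical
  rcases pieces_main B hB hi with h | ⟨⟨D, hD, hD2⟩, -⟩
  · exact Or.inl h
  by_cases hP : Perf GIso B
  · exact Or.inl hP
  right
  have hr : ∀ n, ∃ S : Set (Code a), S.Countable ∧ ∀ x ∈ B,
      (∀ u, n ≤ u → ∃ d ∈ D, n ≤ d.2 ∧ SamePiece n x u d.1 d.2) →
      ∃ x' ∈ S, GIso (toI x) (toI x') := by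
    intro n
    rcases D.eq_empty_or_nonempty with he | hne
    · refine ⟨∅, countable_empty, fun x hx h => ?_⟩
      obtain ⟨d, hd, -⟩ := h n le_rfl
      rw [he] at hd
      exact absurd hd (notMem_empty d)
    obtain ⟨f, hf⟩ := hD.exists_eq_range hne
    rcases dich_lst (B := (back ⁻¹' B : Set (Code (ar a n)))) (continuous_back.measurable hB)
      (fun k => (rest n (f k).1, (f k).2 - n)) with ⟨S, hS, hS2⟩ | hp
    · refine ⟨back '' S, hS.image _, fun x hx h => ?_⟩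
      obtain ⟨c', hc', h4⟩ := hS2 (rest n x) ⟨by
        show back (rest n x) ∈ B
        rw [back_rest]
        exact hx, fun b => by
        obtain ⟨d, hd, h1, h2⟩ := h (n + b) (Nat.le_add_right _ _)
        rw [hf] at hd
        obtain ⟨k, rfl⟩ := hd
        refine ⟨k, ?_⟩
        rw [← samePiece_iff, Nat.add_sub_cancel' h1]
        exact h2⟩
      refine ⟨back c', ⟨c', hc', rfl⟩, ?_⟩
      have h5 := giso_back h4
      rw [back_rest] at h5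
      exact h5
    · exfalso
      obtain ⟨g, g1, g2, g3⟩ := perf_back hp
      exact hP ⟨fun b => back (g b), continuous_back.comp g1, fun b => (g2 b).1, g3⟩
  choose S hS hS2 using hr
  refine ⟨D, hD, hD2, ⋃ n, S n, countable_iUnion hS, fun x hx n h => ?_⟩
  obtain ⟨x', hx', h1⟩ := hS2 n x hx h
  exact ⟨x', mem_iUnion.2 ⟨n, hx'⟩, h1⟩

end Pool.Agent.U105.LB
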