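import Pool.Agent.N649.WL.Main

set_option autoImplicit false

/-!
# Families of classes of an analytic equivalence relation

`E` is an analytic equivalence relation on `X`, and `A` a Borel set of pairs of a point of `Y` and a
family of elements of `X` (labels) indexed by a countable set `J`; replacing the labels by equivalent
ones does not lead out of `A`. Then `A` contains a perfect set of families which list pairwise
different sets of classes, or there are countably many classes such that every member of `A` has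
only finitely many labels in other classes.
-/

namespace Pool.Agent.U105.LB

open Set MeasureTheory
open Pool.Agent.H579R3.SV (novikov' ana_inter interp silver polish_cantor not_countable meas_rel)
open Pool.Agent.N649.WL (Dc LE JJ JJ_equiv JJ_meas swapY cocountable)

variable {X Y J : Type*} [TopologicalSpace X] [PolishSpace X] [MeasurableSpace X] [BorelSpace X]
  [TopologicalSpace Y] [PolishSpace Y] [MeasurableSpace Y] [BorelSpace Y] [Countable J]

/-- The `F`-class of `x` consists of countably many classes of `E`. -/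
def Small (E F : X → X → Prop) (x : X) : Prop :=
  ∃ T : Set X, T.Countable ∧ ∀ x', F x x' → ∃ k ∈ T, E k x'

/-- Infinitely many labels with uncountably many variations. -/
theorem vary {E F : X → X → Prop} (hE : Equivalence E) (hF : Equivalence F)
    {A : Set (Y × (J → X))}
    (hAF : ∀ (p : Y) (y z : J → X), (∀ i, F (y i) (z i)) → (p, y) ∈ A → (p, z) ∈ A)
    {p0 : Y × (J → X)} (hp0 : p0 ∈ A) (hinf : {j | ¬ Small E F (p0.2 j)}.Infinite) :
    ∃ h : (ℕ → Bool) → Y × (J → X), Measurable h ∧ (∀ b, h b ∈ A) ∧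
      ∀ b b', b ≠ b' → ¬ JJ E (h b).2 (h b').2 := by
  classical
  obtain ⟨w, hw, hw2⟩ : ∃ w : ℕ → J, Function.Injective w ∧ ∀ n, ¬ Small E F (p0.2 (w n)) := by
    have hi : Infinite {j | ¬ Small E F (p0.2 j)} := hinf.to_subtype
    let w := Infinite.natEmbedding {j | ¬ Small E F (p0.2 j)}
    exact ⟨fun n => (w n).1, fun m n h => w.injective (Subtype.ext h), fun n => (w n).2⟩
  have hnew : ∀ (n : ℕ) (L : List X), ∃ x, F (p0.2 (w n)) x ∧ (∀ j, ¬ E (p0.2 j) x) ∧
      ∀ y ∈ L, ¬ E y x := by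
    intro n L
    by_contra hno
    push Not at hno
    refine hw2 n ⟨range p0.2 ∪ {y | y ∈ L}, (countable_range _).union
      (L.finite_toSet.countable), fun x hx => ?_⟩
    by_cases h : ∀ j, ¬ E (p0.2 j) x
    · obtain ⟨y, hy, hyx⟩ := hno x hx h
      exact ⟨y, Or.inr hy, hyx⟩
    · push Not at h
      obtain ⟨j, hj⟩ := h
      exact ⟨_, Or.inl ⟨j, rfl⟩, hj⟩
  choose nxt hnxt using hnew
  let sq : ℕ → List X := fun n => Nat.rec [] (fun k L => nxt k L :: L) n
  have hsq : ∀ n, sq (n + 1) = nxt n (sq n) :: sq n := fun n => rfl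
  let T : ℕ → X := fun n => nxt n (sq n)
  have hmem : ∀ i j, i < j → T i ∈ sq j := by
    intro i j hij
    induction j, hij using Nat.le_induction with
    | base =>
      rw [hsq]
      exact List.mem_cons_self
    | succ j _ ih =>
      rw [hsq]
      exact List.mem_cons_of_mem _ ih
  have hT1 : ∀ n, F (p0.2 (w n)) (T n) := fun n => (hnxt n _).1
  have hT2 : ∀ n j, ¬ E (p0.2 j) (T n) := fun n => (hnxt n _).2.1
  have hT3 : ∀ m n, E (T m) (T n) → m = n := by
    intro m n h
    rcases lt_trichotomy m n with h1 | h1 | h1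
    · exact absurd h ((hnxt n (sq n)).2.2 _ (hmem m n h1))
    · exact h1
    · exact absurd (hE.symm h) ((hnxt m (sq m)).2.2 _ (hmem n m h1))
  let lb : (ℕ → Bool) → J → X := fun r j =>
    if h : ∃ n, w n = j then (if r h.choose = true then T h.choose else p0.2 j) else p0.2 j
  have hlb1 : ∀ r n, lb r (w n) = if r n = true then T n else p0.2 (w n) := by
    intro r n
    have h : ∃ m, w m = w n := ⟨n, rfl⟩
    have e : h.choose = n := hw h.choose_spec
    show (if h : ∃ m, w m = w n then (if r h.choose = true then T h.choose else p0.2 (w n))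
      else p0.2 (w n)) = _
    rw [dif_pos h, e]
  have hlb2 : ∀ r j, (∃ n, w n = j ∧ r n = true ∧ lb r j = T n) ∨ lb r j = p0.2 j := by
    intro r j
    by_cases h : ∃ n, w n = j
    · obtain ⟨n, rfl⟩ := h
      rw [hlb1]
      by_cases hr : r n = true
      · left
        exact ⟨n, rfl, hr, by rw [if_pos hr]⟩
      · right
        rw [if_neg hr]
    · right
      show (if h : ∃ n, w n = j then (if r h.choose = true then T h.choose else p0.2 j)
        else p0.2 j) = _
      rw [dif_neg h]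
  have key : ∀ r r', JJ E (lb r) (lb r') → ∀ n, r n = true → r' n = true := by
    intro r r' h n hn
    obtain ⟨j, hj⟩ := h.1 (w n)
    rw [hlb1, if_pos hn] at hj
    rcases hlb2 r' j with ⟨m, -, hm, e⟩ | e
    · rw [e] at hj
      rw [hT3 _ _ hj]
      exact hm
    · rw [e] at hj
      exact absurd (hE.symm hj) (hT2 n j)
  refine ⟨fun r => (p0.1, lb r), ?_, fun r => ?_, fun r r' hne h => hne ?_⟩
  · refine measurable_const.prodMk (measurable_pi_lambda _ fun j => ?_)
    by_cases h : ∃ n, w n = j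
    · obtain ⟨n, rfl⟩ := h
      have e : (fun r : ℕ → Bool => lb r (w n)) =
          (fun b : Bool => if b = true then T n else p0.2 (w n)) ∘ fun r => r n := by
        funext r
        exact hlb1 r n
      rw [e]
      exact measurable_from_top.comp (measurable_pi_apply n)
    · have e : (fun r : ℕ → Bool => lb r j) = fun _ => p0.2 j := by
        funext r
        rcases hlb2 r j with ⟨n, hn, -⟩ | e
        · exact absurd ⟨n, hn⟩ h
        · exact e
      rw [e]
      exact measurable_const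
  · refine hAF p0.1 p0.2 _ (fun j => ?_) hp0
    rcases hlb2 r j with ⟨n, rfl, -, e⟩ | e
    · rw [e]
      exact hT1 n
    · rw [e]
      exact hF.refl _
  · funext n
    rw [Bool.eq_iff_iff]
    exact ⟨key r r' h n, key r' r ((JJ_equiv hE).symm h) n⟩

/-- A label with perfectly many variations. -/
theorem vary1 {E F : X → X → Prop} (hE : Equivalence E) (hF : Equivalence F)
    {A : Set (Y × (J → X))}
    (hAF : ∀ (p : Y) (y z : J → X), (∀ i, F (y i) (z i)) → (p, y) ∈ A → (p, z) ∈ A)
    {p0 : Y × (J → X)} (hp0 : p0 ∈ A) (i : J) {g : (ℕ → Bool) → X} (g1 : Measurable g)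
    (g2 : ∀ b, F (p0.2 i) (g b)) (g3 : ∀ b b', b ≠ b' → ¬ E (g b) (g b')) :
    ∃ h : (ℕ → Bool) → Y × (J → X), Measurable h ∧ (∀ b, h b ∈ A) ∧
      ∀ b b', b ≠ b' → ¬ JJ E (h b).2 (h b').2 := by
  classical
  let D : Set (ℕ → Bool) := ⋃ j : J, {b | E (g b) (p0.2 j)}
  have hD : D.Countable := by
    refine countable_iUnion fun j => Set.Subsingleton.countable ?_
    intro b hb b' hb'
    by_contra hne
    exact g3 b b' hne (hE.trans hb (hE.symm hb'))
  obtain ⟨k, k1, k2, k3⟩ := cocountable hD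
  refine ⟨fun b => (p0.1, Function.update p0.2 i (g (k b))), ?_, fun b => ?_, fun b b' hb => ?_⟩
  · refine measurable_const.prodMk (measurable_pi_lambda _ fun n => ?_)
    by_cases hn : n = i
    · subst hn
      simp only [Function.update_self]
      exact g1.comp k1.measurable
    · simp only [Function.update_of_ne hn]
      exact measurable_const
  · refine hAF p0.1 p0.2 _ (fun n => ?_) hp0
    by_cases hn : n = i
    · subst hn
      rw [Function.update_self]
      exact g2 _
    · rw [Function.update_of_ne hn]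
      exact hF.refl _
  · rintro ⟨h, -⟩
    obtain ⟨j, hj⟩ := h i
    simp only [Function.update_self] at hj
    by_cases hn : j = i
    · rw [hn, Function.update_self] at hj
      exact g3 _ _ (k3 _ _ hb) hj
    · rw [Function.update_of_ne hn] at hj
      exact k2 b (mem_iUnion.2 ⟨_, hj⟩)

/-- **All but finitely many labels are in a countable set.** -/
theorem gen [Nonempty J] {E : X → X → Prop} (hE : Equivalence E)
    (hEa : AnalyticSet {q : X × X | E q.1 q.2}) (Z : Set X) (hZm : MeasurableSet Z)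
    (hZi : ∀ x ∈ Z, ∀ x', E x x' → x' ∈ Z)
    (hX : ∀ C : Set X, MeasurableSet C → C ⊆ Z → (∀ x ∈ C, ∀ x', E x x' → x' ∈ C) → Dc E C)
    {A : Set (Y × (J → X))} (hA : MeasurableSet A)
    (hinv : ∀ (p : Y) (y z : J → X), (∀ i, E (y i) (z i)) → (p, y) ∈ A → (p, z) ∈ A) :
    (∃ h : (ℕ → Bool) → Y × (J → X), Measurable h ∧ (∀ b, h b ∈ A) ∧
      ∀ b b', b ≠ b' → ¬ JJ E (h b).2 (h b').2) ∨
    ∃ D : Set X, D.Countable ∧ ∀ p ∈ A, {j | ∀ d ∈ D, ¬ E d (p.2 j)}.Finite ∧
      ∀ j, p.2 j ∈ Z → ∃ d ∈ D, E d (p.2 j) := by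
  classical
  obtain ⟨R, hR, hER, hRsw⟩ := swapY hEa hA hinv
  obtain ⟨F, hF, hFm, hEF, hFR⟩ := interp hE hEa hR hER
  have hAF : ∀ (p : Y) (y z : J → X), (∀ i, F (y i) (z i)) → (p, y) ∈ A → (p, z) ∈ A :=
    fun p y z h hy => hRsw p y z (fun i => hFR _ _ (h i)) hy
  have hJEF : ∀ y z : J → X, JJ E y z → JJ F y z := fun y z h =>
    ⟨fun i => (h.1 i).imp fun _ h => hEF _ _ h, fun i => (h.2 i).imp fun _ h => hEF _ _ h⟩
  by_cases hperf : ∃ h : (ℕ → Bool) → Y × (J → X), Measurable h ∧ (∀ b, h b ∈ A) ∧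
      ∀ b b', b ≠ b' → ¬ JJ E (h b).2 (h b').2
  · exact Or.inl hperf
  right
  have hAa : AnalyticSet A := hA.analyticSet
  have hPB := polish_cantor
  have hP : ¬ ∃ i, ∃ h : (ℕ → Bool) → Y × (J → X), Continuous h ∧ (∀ b, h b ∈ A) ∧
      ∀ b b', b ≠ b' → ¬ F ((h b).2 i) ((h b').2 i) := by
    rintro ⟨i, h, h1, h2, h3⟩
    have hJ := JJ_equiv (J := J) hF
    have hh : ∀ i, Continuous fun b => (h b).2 i :=
      fun i => (continuous_apply i).comp (continuous_snd.comp h1)
    rcases silver (X := ℕ → Bool) (E := fun b b' => JJ F (h b).2 (h b').2)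
      ⟨fun _ => hJ.refl _, fun h => hJ.symm h, fun h h' => hJ.trans h h'⟩
      (JJ_meas hFm (f := fun q : (ℕ → Bool) × (ℕ → Bool) => (h q.1).2) (g := fun q => (h q.2).2)
        (fun i => ((hh i).comp continuous_fst).measurable)
        (fun i => ((hh i).comp continuous_snd).measurable))
      (MeasurableSet.univ.analyticSet) with ⟨S, -, hS, hS2⟩ | ⟨g, g1, -, g3⟩
    · have h4 : (univ : Set (ℕ → Bool)) ⊆ ⋃ s ∈ S, ⋃ j : J, {b | F ((h b).2 i) ((h s).2 j)} := by
        intro b _
        obtain ⟨s, hs, hJs⟩ := hS2 b (mem_univ b)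
        obtain ⟨j, hj⟩ := hJs.1 i
        exact mem_biUnion hs (mem_iUnion.2 ⟨j, hj⟩)
      have h5 : (univ : Set (ℕ → Bool)).Countable := by
        refine (hS.biUnion fun s _ => countable_iUnion fun j => ?_).mono h4
        refine Set.Subsingleton.countable ?_
        intro b hb b' hb'
        by_contra hne
        exact h3 b b' hne (hF.trans hb (hF.symm hb'))
      exact not_countable (countable_univ_iff.1 h5)
    · exact hperf ⟨fun b => h (g b), (h1.comp g1).measurable, fun b => h2 _, fun b b' hb hc =>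
        g3 b b' hb (hJEF _ _ hc)⟩
  have hS : ∀ i, ∃ S ⊆ A, S.Countable ∧ ∀ x ∈ A, ∃ y ∈ S, F (x.2 i) (y.2 i) := by
    intro i
    rcases silver (X := Y × (J → X)) (E := fun y z => F (y.2 i) (z.2 i))
      ⟨fun _ => hF.refl _, fun h => hF.symm h, fun h h' => hF.trans h h'⟩
      (meas_rel hFm (f := fun q : (Y × (J → X)) × (Y × (J → X)) => q.1.2 i)
        (g := fun q => q.2.2 i) (by fun_prop) (by fun_prop)) hAa with h | ⟨h, h1, h2, h3⟩
    · exact h
    · exact absurd ⟨i, h, h1, h2, h3⟩ hP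
  choose S hSA hSc hS2 using hS
  have hfin : ∀ p ∈ A, {j | ¬ Small E F (p.2 j)}.Finite := by
    intro p hp
    by_contra hinf
    exact hperf (vary hE hF hAF hp hinf)
  -- the labels in `Z`
  have hT' : ∀ p0 ∈ A, ∀ i, ∃ T : Set X, T.Countable ∧
      ∀ x, F (p0.2 i) x → x ∈ Z → ∃ k ∈ T, E k x := by
    intro p0 hp0 i
    have hm : MeasurableSet {x | F (p0.2 i) x} :=
      meas_rel hFm (f := fun _ : X => p0.2 i) (g := fun x => x) measurable_const measurable_id
    rcases hX ({x | F (p0.2 i) x} ∩ Z) (hm.inter hZm) inter_subset_right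
      (fun x hx x' h => ⟨hF.trans hx.1 (hEF _ _ h), hZi x hx.2 x' h⟩) with
      ⟨S, -, hS, hS2⟩ | ⟨g, g1, g2, g3⟩
    · refine ⟨S, hS, fun x hx hxZ => ?_⟩
      obtain ⟨y, hy, h⟩ := hS2 x ⟨hx, hxZ⟩
      exact ⟨y, hy, hE.symm h⟩
    · exact absurd (vary1 hE hF hAF hp0 i g1 (fun b => (g2 b).1) g3) hperf
  choose! T' hT'c hT'2 using hT'
  have hT : ∀ x, ∃ T : Set X, T.Countable ∧ (Small E F x → ∀ x', F x x' → ∃ k ∈ T, E k x') := by
    intro x
    by_cases h : Small E F x
    · obtain ⟨T, hT, hT2⟩ := h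
      exact ⟨T, hT, fun _ => hT2⟩
    · exact ⟨∅, countable_empty, fun h' => absurd h' h⟩
  choose T hTc hT2 using hT
  refine ⟨(⋃ i, ⋃ p ∈ S i, T (p.2 i)) ∪ ⋃ i, ⋃ p ∈ S i, T' p i, ?_, fun p hp => ⟨?_, ?_⟩⟩
  · exact (countable_iUnion fun i => (hSc i).biUnion fun p _ => hTc _).union
      (countable_iUnion fun i => (hSc i).biUnion fun p hp => hT'c p (hSA i hp) i)
  · refine (hfin p hp).subset fun j hj => ?_
    intro hsm
    obtain ⟨z, hz, hzF⟩ := hS2 j p hp
    have hsz : Small E F (z.2 j) := by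
      obtain ⟨U, hU, hU2⟩ := hsm
      exact ⟨U, hU, fun x' hx' => hU2 x' (hF.trans hzF hx')⟩
    obtain ⟨k, hk, hkE⟩ := hT2 (z.2 j) hsz (p.2 j) (hF.symm hzF)
    exact hj k (Or.inl (mem_iUnion.2 ⟨j, mem_biUnion hz hk⟩)) hkE
  · intro j hj
    obtain ⟨z, hz, hzF⟩ := hS2 j p hp
    obtain ⟨k, hk, hkE⟩ := hT'2 z (hSA j hz) j (p.2 j) (hF.symm hzF) hj
    exact ⟨k, Or.inr (mem_iUnion.2 ⟨j, mem_biUnion hz hk⟩), hkE⟩

end Pool.Agent.U105.LB
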