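import Pool.Agent.U105.LB.Asm

set_option autoImplicit false

/-!
# Linear orders with monotone relations
-/

namespace Pool.Agent.U105.LB

open Set MeasureTheory
open Pool.Agent.N649.WL (Dc LE JJ)
open Pool.Agent.Y558.MC (XS SO IsoS)

/-- The relation `0` is a strict linear order, and all relations are monotone or antitone in each
argument. -/
structure MOrd (x : ℕ → ℕ → ℕ → Bool) : Prop where
  irrefl : ∀ m, x 0 m m = false
  trans : ∀ m n k, x 0 m n = true → x 0 n k = true → x 0 m k = true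
  total : ∀ m n, m = n ∨ x 0 m n = true ∨ x 0 n m = true
  first : ∀ i, (∀ m m' n, x 0 m m' = true → x i m n = true → x i m' n = true) ∨
    ∀ m m' n, x 0 m' m = true → x i m n = true → x i m' n = true
  second : ∀ i, (∀ m n n', x 0 n n' = true → x i m n = true → x i m n' = true) ∨
    ∀ m n n', x 0 n' n = true → x i m n = true → x i m n' = true

/-- Isomorphisms. -/
def MI (σ : Equiv.Perm ℕ) (x y : ℕ → ℕ → ℕ → Bool) : Prop := ∀ i m n, y i (σ m) (σ n) = x i m n

variable {X : Type} [TopologicalSpace X] [PolishSpace X] [MeasurableSpace X] [BorelSpace X]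

theorem mono {E : X → X → Prop} (hE : Equivalence E)
    (hEa : AnalyticSet {q : X × X | E q.1 q.2}) (Z : Set X) (hZm : MeasurableSet Z)
    (hZi : ∀ x ∈ Z, ∀ x', E x x' → x' ∈ Z)
    (hX : ∀ C : Set X, MeasurableSet C → C ⊆ Z → (∀ x ∈ C, ∀ x', E x x' → x' ∈ C) → Dc E C)
    {A : Set ((ℕ → ℕ → ℕ → Bool) × (ℕ → X))} (hA : MeasurableSet A) (hAS : ∀ p ∈ A, MOrd p.1)
    (hinv : ∀ p ∈ A, ∀ q, LE MI E p q → q ∈ A) :
    (∃ h : (ℕ → Bool) → (ℕ → ℕ → ℕ → Bool) × (ℕ → X), Measurable h ∧ (∀ b, h b ∈ A) ∧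
      ∀ b b', b ≠ b' → ¬ LE MI E (h b) (h b')) ∨
    ∃ S ⊆ A, S.Countable ∧ ∀ p ∈ A, (∀ j, p.2 j ∈ Z ∨ ∃ q ∈ A, {i | E (p.2 j) (q.2 i)}.Infinite) →
      ∃ q ∈ S, LE MI E p q := by
  let up : (ℕ → ℕ → ℕ → Bool) → XS := fun x => (x, fun _ _ => true, fun _ _ => false)
  have hI : ∀ (σ : Equiv.Perm ℕ) (x y : ℕ → ℕ → ℕ → Bool), MI σ x y ↔ IsoS σ (up x) (up y) := by
    intro σ x y
    constructor
    · intro h
      exact ⟨h, fun _ _ => rfl, fun _ _ => rfl⟩
    · intro h
      exact h.1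
  have hLE : ∀ p q : (ℕ → ℕ → ℕ → Bool) × (ℕ → X), LE MI E p q ↔
      LE IsoS E (up p.1, p.2) (up q.1, q.2) := by
    intro p q
    exact exists_congr fun σ => and_congr (hI σ _ _) Iff.rfl
  let A' : Set (XS × (ℕ → X)) := {p | (p.1.1, p.2) ∈ A ∧ (∀ i m, p.1.2.1 i m = true) ∧
    ∀ i m, p.1.2.2 i m = false}
  have hA' : MeasurableSet A' := by
    have m1 : Measurable fun p : XS × (ℕ → X) => (p.1.1, p.2) :=
      (measurable_fst.comp measurable_fst).prodMk measurable_snd
    have m2 : ∀ i m, Measurable fun p : XS × (ℕ → X) => p.1.2.1 i m := fun i m =>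
      (measurable_pi_apply m).comp ((measurable_pi_apply i).comp
        (measurable_fst.comp (measurable_snd.comp measurable_fst)))
    have m3 : ∀ i m, Measurable fun p : XS × (ℕ → X) => p.1.2.2 i m := fun i m =>
      (measurable_pi_apply m).comp ((measurable_pi_apply i).comp
        (measurable_snd.comp (measurable_snd.comp measurable_fst)))
    refine (m1 hA).inter (MeasurableSet.inter ?_ ?_)
    · have e : {p : XS × (ℕ → X) | ∀ i m, p.1.2.1 i m = true} =
          ⋂ i, ⋂ m, {p : XS × (ℕ → X) | p.1.2.1 i m = true} := by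
        ext p
        simp
      show MeasurableSet {p : XS × (ℕ → X) | ∀ i m, p.1.2.1 i m = true}
      rw [e]
      exact MeasurableSet.iInter fun i => MeasurableSet.iInter fun m =>
        m2 i m (measurableSet_singleton true)
    · have e : {p : XS × (ℕ → X) | ∀ i m, p.1.2.2 i m = false} =
          ⋂ i, ⋂ m, {p : XS × (ℕ → X) | p.1.2.2 i m = false} := by
        ext p
        simp
      show MeasurableSet {p : XS × (ℕ → X) | ∀ i m, p.1.2.2 i m = false}
      rw [e]
      exact MeasurableSet.iInter fun i => MeasurableSet.iInter fun m =>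
        m3 i m (measurableSet_singleton false)
  have hup : ∀ p ∈ A', p = (up p.1.1, p.2) := by
    rintro p ⟨-, h2, h3⟩
    refine Prod.ext (Prod.ext rfl (Prod.ext ?_ ?_)) rfl
    · funext i m
      exact h2 i m
    · funext i m
      exact h3 i m
  have hupA : ∀ p ∈ A, (up p.1, p.2) ∈ A' := fun p hp => ⟨hp, fun _ _ => rfl, fun _ _ => rfl⟩
  rcases sorts hE hEa Z hZm hZi hX hA' (by
    intro p hp
    have h := hAS _ hp.1
    rw [hup p hp]
    refine ⟨fun m => ⟨0, rfl⟩, h.irrefl, fun _ m n k _ _ _ => h.trans m n k,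
      fun _ m n _ _ => h.total m n, fun i _ _ => ?_, fun i _ _ => ?_⟩
    · rcases h.first i with h1 | h1
      · exact Or.inl fun m m' n _ _ _ => h1 m m' n
      · exact Or.inr fun m m' n _ _ _ => h1 m m' n
    · rcases h.second i with h1 | h1
      · exact Or.inl fun m n n' _ _ _ => h1 m n n'
      · exact Or.inr fun m n n' _ _ _ => h1 m n n') (by
    rintro p hp q ⟨σ, ⟨h1, h2, h3⟩, h4⟩
    refine ⟨hinv _ hp.1 _ ⟨σ, h1, h4⟩, fun i m => ?_, fun i m => ?_⟩
    · obtain ⟨m, rfl⟩ := σ.surjective m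
      rw [h2]
      exact hp.2.1 i m
    · obtain ⟨m, rfl⟩ := σ.surjective m
      rw [h3]
      exact hp.2.2 i m) with ⟨h, h1, h2, h3⟩ | ⟨S, h1, h2, h3⟩
  · left
    refine ⟨fun b => ((h b).1.1, (h b).2), ?_, fun b => (h2 b).1, fun b b' hb hL => ?_⟩
    · exact (measurable_fst.comp (measurable_fst.comp h1)).prodMk (measurable_snd.comp h1)
    · refine h3 b b' hb ?_
      rw [hup _ (h2 b), hup _ (h2 b')]
      exact (hLE _ _).1 hL
  · right
    refine ⟨(fun p : XS × (ℕ → X) => (p.1.1, p.2)) '' S, ?_, h2.image _, fun p hp hr => ?_⟩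
    · rintro _ ⟨q, hq, rfl⟩
      exact (h1 hq).1
    · obtain ⟨q, hq, hL⟩ := h3 (up p.1, p.2) (hupA p hp) fun j => by
        rcases hr j with h | ⟨q, hq, hi⟩
        · exact Or.inl h
        · exact Or.inr ⟨(up q.1, q.2), hupA q hq, hi⟩
      refine ⟨(q.1.1, q.2), ⟨q, hq, rfl⟩, ?_⟩
      rw [hup q (h1 hq)] at hL
      exact (hLE p (q.1.1, q.2)).2 hL

end Pool.Agent.U105.LB
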