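import Pool.Agent.U105.LB.Cmp
import Pool.Agent.R529.AM.Defs

set_option autoImplicit false

/-!
# Components and pieces over finite sets of the members of a Borel class of structures
-/

namespace Pool.Agent.U105.LB

open Set MeasureTheory Pool.Agent.H623R2.VE Pool.Agent.H579R3.VP Pool.Agent.H579R3.VR
open Pool.Agent.H579R3.SV (silver polish_cantor not_countable ana_inter)
open Pool.Agent.N649.WL (Dc JJ)

/-- Lifting perfect families through an analytic relation. -/
theorem lift_perf {L C : Type*} [TopologicalSpace L] [PolishSpace L] [MeasurableSpace L]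
    [BorelSpace L] [TopologicalSpace C] [PolishSpace C] [MeasurableSpace C] [BorelSpace C]
    {h : (ℕ → Bool) → L} (hm : Measurable h) {Γ : Set (L × C)} (hΓ : AnalyticSet Γ)
    {B : Set C} (hB : MeasurableSet B) (hex : ∀ b, ∃ c ∈ B, (h b, c) ∈ Γ) {G : C → C → Prop}
    (hG : ∀ b b' c c', (h b, c) ∈ Γ → (h b', c') ∈ Γ → G c c' → b = b') :
    ∃ f : (ℕ → Bool) → C, Continuous f ∧ (∀ b, f b ∈ B) ∧ ∀ b b', G (f b) (f b') → b = b' := by
  have hPB := polish_cantor
  have hS : AnalyticSet {q : (ℕ → Bool) × C | (h q.1, q.2) ∈ Γ ∧ q.2 ∈ B} := by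
    have h1 : MeasurableSet {w : L × ((ℕ → Bool) × C) | h w.2.1 = w.1 ∧ w.2.2 ∈ B} := by
      refine MeasurableSet.inter ?_ ?_
      · exact measurableSet_eq_fun (hm.comp (measurable_fst.comp measurable_snd)) measurable_fst
      · exact (measurable_snd.comp measurable_snd) hB
    have h2 : AnalyticSet {w : L × ((ℕ → Bool) × C) | (w.1, w.2.2) ∈ Γ} :=
      hΓ.preimage (f := fun w : L × ((ℕ → Bool) × C) => (w.1, w.2.2)) (by fun_prop)
    have h3 := (ana_inter h1.analyticSet h2).image_of_continuous (f := Prod.snd) continuous_snd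
    have e : Prod.snd '' ({w : L × ((ℕ → Bool) × C) | h w.2.1 = w.1 ∧ w.2.2 ∈ B} ∩
        {w : L × ((ℕ → Bool) × C) | (w.1, w.2.2) ∈ Γ}) =
        {q : (ℕ → Bool) × C | (h q.1, q.2) ∈ Γ ∧ q.2 ∈ B} := by
      ext q
      constructor
      · rintro ⟨⟨l, q'⟩, ⟨⟨h1, h2⟩, h3⟩, rfl⟩
        have h1' : h q'.1 = l := h1
        refine ⟨?_, h2⟩
        show (h q'.1, q'.2) ∈ Γ
        rw [h1']
        exact h3
      · rintro ⟨h1, h2⟩
        exact ⟨(h q.1, q), ⟨⟨rfl, h2⟩, h1⟩, rfl⟩
    rwa [e] at h3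
  rcases silver (X := (ℕ → Bool) × C) (E := fun q q' => q.1 = q'.1)
    ⟨fun _ => rfl, fun h => h.symm, fun h h' => h.trans h'⟩
    (measurableSet_eq_fun (measurable_fst.comp measurable_fst)
      (measurable_fst.comp measurable_snd)) hS with ⟨S, hSS, hSc, hS2⟩ | ⟨k, k1, k2, k3⟩
  · exfalso
    have h1 : (univ : Set (ℕ → Bool)) ⊆ Prod.fst '' S := by
      intro b _
      obtain ⟨c, hc, hbc⟩ := hex b
      obtain ⟨y, hy, h2⟩ := hS2 (b, c) ⟨hbc, hc⟩
      exact ⟨y, hy, h2.symm⟩
    exact not_countable (countable_univ_iff.1 ((hSc.image _).mono h1))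
  · refine ⟨fun b => (k b).2, continuous_snd.comp k1, fun b => (k2 b).2, fun b b' hbb => ?_⟩
    by_contra hne
    exact k3 b b' hne (hG _ _ _ _ (k2 b).1 (k2 b').1 hbb)

section comp

variable {Idx : Type} {a : Idx → ℕ} [Countable Idx]

theorem null_meas : MeasurableSet {l : ℕ → Code a × ℕ |
    ∀ i j, NullEq (toI (l i).1) (toI (l j).1)} := by
  have hc : ∀ i, Measurable fun l : ℕ → Code a × ℕ => (l i).1 := fun i => by fun_prop
  refine measurableSet_setOfPred.2 (Measurable.forall fun i => Measurable.forall fun j => ?_)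
  unfold NullEq
  refine Measurable.forall fun q => Measurable.imp measurable_const
    (Measurable.forall fun t => Measurable.forall fun t' => Measurable.iff ?_ ?_)
  · exact m_rel (hc i) q fun k => measurable_const
  · exact m_rel (hc j) q fun k => measurable_const

theorem A_meas {K : Set (Code a)} (hK : MeasurableSet K)
    (hinv : ∀ c c' : Code a, GIso (toI c) (toI c') → c ∈ K → c' ∈ K) :
    MeasurableSet {l : ℕ → Code a × ℕ | ∃ c ∈ K, Gam l c} := by
  have i1 : PolishSpace (Code a) := inferInstance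
  have i2 : PolishSpace (Code a × ℕ) := inferInstance
  have i3 : PolishSpace (ℕ → Code a × ℕ) := inferInstance
  have i4 : BorelSpace (Code a × ℕ) := inferInstance
  have i5 : BorelSpace (ℕ → Code a × ℕ) := inferInstance
  have i6 : BorelSpace ((ℕ → Code a × ℕ) × Code a) := inferInstance
  have key : ∀ K : Set (Code a), MeasurableSet K →
      AnalyticSet {l : ℕ → Code a × ℕ | ∃ c ∈ K, Gam l c} := by
    intro K hK
    have h1 : MeasurableSet {q : (ℕ → Code a × ℕ) × Code a | q.2 ∈ K} := measurable_snd hK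
    have h2 := (ana_inter h1.analyticSet Gam_ana).image_of_continuous (f := Prod.fst)
      continuous_fst
    have e : Prod.fst '' ({q : (ℕ → Code a × ℕ) × Code a | q.2 ∈ K} ∩
        {q : (ℕ → Code a × ℕ) × Code a | Gam q.1 q.2}) =
        {l : ℕ → Code a × ℕ | ∃ c ∈ K, Gam l c} := by
      ext l
      constructor
      · rintro ⟨⟨l', c⟩, ⟨h1, h2⟩, rfl⟩
        exact ⟨c, h1, h2⟩
      · rintro ⟨c, h1, h2⟩
        exact ⟨(l, c), ⟨h1, h2⟩, rfl⟩
    rwa [e] at h2
  refine (key K hK).measurableSet_of_compl ?_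
  have e : {l : ℕ → Code a × ℕ | ∃ c ∈ K, Gam l c}ᶜ =
      {l : ℕ → Code a × ℕ | ∃ c ∈ Kᶜ, Gam l c} ∪
      {l : ℕ → Code a × ℕ | ∀ i j, NullEq (toI (l i).1) (toI (l j).1)}ᶜ := by
    ext l
    constructor
    · intro h
      by_cases hn : ∀ i j, NullEq (toI (l i).1) (toI (l j).1)
      · obtain ⟨c, hc⟩ := Gam_ex hn
        left
        exact ⟨c, fun hcK => h ⟨c, hcK, hc⟩, hc⟩
      · exact Or.inr hn
    · rintro (⟨c, hc, hlc⟩ | h)
      · rintro ⟨c', hc', hlc'⟩
        exact hc (hinv c' c (Gam_glue hlc' hlc fun j => CEq.refl _ _) hc')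
      · rintro ⟨c', hc', v, h1, -, -⟩
        refine h fun i j => ?_
        intro q hE t t'
        have h2 := (h1 i).nullEq q hE (fun k => (hE.false k).elim) t
        have h3 := (h1 j).nullEq q hE (fun k => (hE.false k).elim) t'
        exact h2.symm.trans h3
  rw [e]
  have h1 := key Kᶜ hK.compl
  have h2 : AnalyticSet {l : ℕ → Code a × ℕ | ∀ i j, NullEq (toI (l i).1) (toI (l j).1)}ᶜ :=
    null_meas.compl.analyticSet
  rw [union_eq_iUnion]
  exact AnalyticSet.iUnion fun b => by
    cases b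
    · exact h2
    · exact h1

/-- **All but finitely many components are in a countable list.** -/
theorem comp_main {K : Set (Code a)} (hK : MeasurableSet K)
    (hinv : ∀ c c' : Code a, GIso (toI c) (toI c') → c ∈ K → c' ∈ K) :
    Perf GIso K ∨ ∃ D : Set (Code a × ℕ), D.Countable ∧ ∀ c ∈ K, ∃ s : Finset ℕ, ∀ u,
      (∃ d ∈ D, CEq (toI c) u (toI d.1) d.2) ∨ ∃ v ∈ s, Conn (toI c) v u := by
  classical
  have i1 : PolishSpace (Code a) := inferInstance
  have i2 : PolishSpace (Code a × ℕ) := inferInstance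
  have i3 : PolishSpace (ℕ → Code a × ℕ) := inferInstance
  have i4 : BorelSpace (Code a × ℕ) := inferInstance
  have i5 : BorelSpace (ℕ → Code a × ℕ) := inferInstance
  have hA : MeasurableSet {p : Unit × (ℕ → Code a × ℕ) | ∃ c ∈ K, Gam p.2 c} :=
    measurable_snd (A_meas hK hinv)
  rcases gen (J := ℕ) (Y := Unit) PE_equiv PE_ana ∅ MeasurableSet.empty
    (fun x hx => absurd hx (notMem_empty x)) (fun C _ hC _ => by
      left
      refine ⟨∅, empty_subset _, countable_empty, fun x hx => absurd (hC hx) (notMem_empty x)⟩)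
    hA (by
      rintro p y z hyz ⟨c, hc, hy⟩
      refine ⟨c, hc, ?_⟩
      obtain ⟨v, h1, h2, h3⟩ := hy
      exact ⟨v, fun j => (h1 j).trans (hyz j), h2, h3⟩) with ⟨h, hm, h1, h2⟩ | ⟨D, hD, hD2⟩
  · left
    exact lift_perf (h := fun b => (h b).2) (measurable_snd.comp hm) Gam_ana hK h1
      (G := fun c c' => GIso (toI c) (toI c')) (by
        intro b b' c c' hc hc' hg
        by_contra hne
        exact h2 b b' hne (Gam_same hc hc' hg))
  · right
    refine ⟨D, hD, fun c hc => ?_⟩
    rcases finite_or_infinite (Comp (toI c)) with hf | hinf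
    · have hft : Fintype (Comp (toI c)) := Fintype.ofFinite _
      refine ⟨Finset.univ.image fun q : Comp (toI c) => q.out, fun u => Or.inr ?_⟩
      refine ⟨(Quotient.mk (compSetoid (toI c)) u).out, Finset.mem_image.2 ⟨_, Finset.mem_univ _,
        rfl⟩, ?_⟩
      exact Quotient.mk_out (s := compSetoid (toI c)) u
    · obtain ⟨v, h1, h2, h3⟩ := Gam_comp hinf
      obtain ⟨hfin, -⟩ := hD2 ((), fun j => (c, v j)) ⟨c, hc, h1⟩
      refine ⟨hfin.toFinset.image v, fun u => ?_⟩
      obtain ⟨j, hj⟩ := h3 u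
      by_cases h : j ∈ hfin.toFinset
      · exact Or.inr ⟨v j, Finset.mem_image_of_mem v h, hj⟩
      · left
        have h' : ¬ ∀ d ∈ D, ¬ PE d (c, v j) := fun h4 => h (hfin.mem_toFinset.2 h4)
        push Not at h'
        obtain ⟨d, hd, hdc⟩ := h'
        exact ⟨d, hd, (CEq.of_conn hj.symm).trans (CEq.symm hdc)⟩

/-- the component of `b` in `c` is isomorphic to infinitely many components of a member of `K` -/
def Rp (K : Set (Code a)) (c : Code a) (b : ℕ) : Prop :=
  ∃ d ∈ K, ∃ w : ℕ → ℕ, (∀ i j, Conn (toI d) (w i) (w j) → i = j) ∧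
    ∀ i, CEq (toI c) b (toI d) (w i)

/-- The members all of whose components are repeated. -/
theorem rep_main {K : Set (Code a)} (hK : MeasurableSet K) {D : Set (Code a × ℕ)}
    (hD : D.Countable) (h : ∀ c ∈ K, ∃ s : Finset ℕ, ∀ u,
      (∃ d ∈ D, CEq (toI c) u (toI d.1) d.2) ∨ ∃ v ∈ s, Conn (toI c) v u) :
    Perf GIso K ∨ ∃ S : Set (Code a), S.Countable ∧ ∀ c ∈ K, (∀ b, Rp K c b) →
      ∃ c' ∈ S, GIso (toI c) (toI c') := by
  classical
  have key : ∀ c b, Rp K c b → ∃ d ∈ D, CEq (toI c) b (toI d.1) d.2 := by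
    rintro c b ⟨d, hd, w, h1, h2⟩
    obtain ⟨s, hs⟩ := h d hd
    by_contra hno
    have h3 : ∀ i, ∃ v ∈ s, Conn (toI d) v (w i) := by
      intro i
      rcases hs (w i) with ⟨e, he, h4⟩ | h4
      · exact absurd ⟨e, he, (h2 i).trans h4⟩ hno
      · exact h4
    choose v hv hvw using h3
    have hinj : Function.Injective v := by
      intro i j hij
      refine h1 i j ((hvw i).symm.trans ?_)
      rw [hij]
      exact hvw j
    have hfin : (univ : Set ℕ).Finite := by
      refine Set.Finite.of_finite_image (f := v) ?_ hinj.injOn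
      exact s.finite_toSet.subset (by
        rintro _ ⟨i, -, rfl⟩
        exact hv i)
    exact infinite_univ hfin
  rcases D.eq_empty_or_nonempty with rfl | hne
  · right
    refine ⟨∅, countable_empty, fun c hc hr => ?_⟩
    obtain ⟨d, hd, -⟩ := key c 0 (hr 0)
    exact absurd hd (notMem_empty d)
  obtain ⟨f, rfl⟩ := hD.exists_eq_range hne
  rcases dich_lst hK f with ⟨S, hS, hS2⟩ | ⟨g, g1, g2, g3⟩
  · right
    refine ⟨S, hS, fun c hc hr => hS2 c ⟨hc, fun b => ?_⟩⟩
    obtain ⟨_, ⟨n, rfl⟩, hn⟩ := key c b (hr b)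
    exact ⟨n, hn⟩
  · left
    exact ⟨g, g1, fun b => (g2 b).1, g3⟩

end comp

variable {a : ℕ → ℕ} {n : ℕ}

theorem perf_back {V : Set (Code (ar a n))} (hP : Perf GIso V) :
    ∃ f : (ℕ → Bool) → Code (ar a n), Continuous f ∧ (∀ b, f b ∈ V) ∧
      ∀ b b', GIso (toI (back (f b))) (toI (back (f b'))) → b = b' := by
  obtain ⟨f, hf1, hf2, hf3⟩ := hP
  have hF : Continuous fun b => back (f b) := continuous_back.comp hf1
  obtain ⟨h, hh1, hh2⟩ := Pool.Agent.H566W.perfect_independent
    (fun x y => GIso (toI (back (f x))) (toI (back (f y)))) (analytic_giso hF) (by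
      intro x
      choose σ hσ using fun y : {y | GIso (toI (back (f x))) (toI (back (f y)))} => y.2
      have hinj : Function.Injective
          (fun (y : {y | GIso (toI (back (f x))) (toI (back (f y)))}) (j : Fin n) =>
            (σ y).symm (j : ℕ)) := by
        intro y y' hyy
        apply Subtype.ext
        apply hf3
        refine giso_of_back ((σ y).symm.trans (σ y')) (fun j hj => ?_) (fun i t => ?_)
        · have h1 : (σ y).symm j = (σ y').symm j := congrFun hyy ⟨j, hj⟩
          show σ y' ((σ y).symm j) = j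
          rw [h1, Equiv.apply_symm_apply]
        · have h1 := hσ y i (fun k => (σ y).symm (t k))
          have h2 := hσ y' i (fun k => (σ y).symm (t k))
          simp only [Equiv.apply_symm_apply] at h1
          rw [Bool.eq_iff_iff]
          exact h1.symm.trans h2
      exact hinj.countable)
  refine ⟨fun b => f (h b), hf1.comp hh1, fun b => hf2 _, fun b b' hb => ?_⟩
  by_contra hne
  exact hh2 b b' hne hb

end Pool.Agent.U105.LB
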