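import Pool.Agent.U105.LB.Gen

set_option autoImplicit false

/-!
# Labelled structures whose labels are repeated infinitely often in members of the class
-/

namespace Pool.Agent.U105.LB

open Set MeasureTheory
open Pool.Agent.N649.WL (Dc LE JJ)

variable {X Y J : Type*} [TopologicalSpace X] [PolishSpace X] [MeasurableSpace X] [BorelSpace X]
  [TopologicalSpace Y] [PolishSpace Y] [MeasurableSpace Y] [BorelSpace Y] [Countable J]

omit [TopologicalSpace X] [PolishSpace X] [BorelSpace X] [TopologicalSpace Y] [PolishSpace Y]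
  [BorelSpace Y] in
/-- The members of `A` with all labels in a countable set of classes. -/
theorem dlist (I : Equiv.Perm J → Y → Y → Prop) (hI : ∀ y, I 1 y y) {E : X → X → Prop}
    (hE : Equivalence E) (K : Set (Y × (J → ℕ)))
    (hY : ∀ C : Set (Y × (J → ℕ)), MeasurableSet C → C ⊆ K →
      (∀ p ∈ C, ∀ q, LE I (· = ·) p q → q ∈ C) → Dc (LE I (· = ·)) C)
    {A : Set (Y × (J → X))} (hA : MeasurableSet A)
    (hK : ∀ p ∈ A, ∀ κ : J → ℕ, (∀ m n, E (p.2 m) (p.2 n) ↔ κ m = κ n) → (p.1, κ) ∈ K)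
    (hinv : ∀ p ∈ A, ∀ q, LE I E p q → q ∈ A) {D : Set X} (hD : D.Countable) :
    (∃ h : (ℕ → Bool) → Y × (J → X), Measurable h ∧ (∀ b, h b ∈ A) ∧
      ∀ b b', b ≠ b' → ¬ LE I E (h b) (h b')) ∨
    ∃ S ⊆ A, S.Countable ∧ ∀ p ∈ A, (∀ j, ∃ d ∈ D, E d (p.2 j)) → ∃ q ∈ S, LE I E p q := by
  classical
  rcases D.eq_empty_or_nonempty with rfl | hne
  · rcases isEmpty_or_nonempty J with hJ | ⟨⟨j0⟩⟩
    · -- no places
      by_cases hAne : ∃ p ∈ A, True
      · let Φ : Y × (J → ℕ) → Y × (J → X) := fun q => (q.1, fun i => (hJ.false i).elim)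
        have hΦ : Measurable Φ :=
          measurable_fst.prodMk (measurable_pi_lambda _ fun i => (hJ.false i).elim)
        rcases hY (Φ ⁻¹' A) (hΦ hA) (fun q hq => by
            have h1 := hK (Φ q) hq q.2 fun m => (hJ.false m).elim
            exact h1) (by
            rintro q hq q' ⟨σ, h1, h2⟩
            exact hinv _ hq _ ⟨σ, h1, fun n => (hJ.false n).elim⟩) with
          ⟨S, h1, h2, h3⟩ | ⟨g, g1, g2, g3⟩
        · right
          refine ⟨Φ '' S, ?_, h2.image _, fun p hp _ => ?_⟩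
          · rintro _ ⟨q, hq, rfl⟩
            exact h1 hq
          · have hpe : Φ (p.1, fun i => (hJ.false i).elim) = p :=
              Prod.ext rfl (funext fun i => (hJ.false i).elim)
            obtain ⟨q, hq, σ, h4, -⟩ := h3 (p.1, fun i => (hJ.false i).elim) (by
              show Φ _ ∈ A
              rw [hpe]
              exact hp)
            exact ⟨Φ q, ⟨q, hq, rfl⟩, σ, h4, fun n => (hJ.false n).elim⟩
        · left
          refine ⟨fun b => Φ (g b), hΦ.comp g1, g2, fun b b' hb h => g3 b b' hb ?_⟩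
          obtain ⟨σ, h1, -⟩ := h
          exact ⟨σ, h1, fun n => (hJ.false n).elim⟩
      · right
        exact ⟨∅, empty_subset _, countable_empty, fun p hp _ => absurd ⟨p, hp, trivial⟩ hAne⟩
    · right
      refine ⟨∅, empty_subset _, countable_empty, fun p hp h => ?_⟩
      obtain ⟨d, hd, -⟩ := h j0
      exact absurd hd (notMem_empty d)
  obtain ⟨d, rfl⟩ := hD.exists_eq_range hne
  -- the least representatives
  let N : Set ℕ := {n | ∀ m, m < n → ¬ E (d m) (d n)}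
  have hN : ∀ p ∈ A, (∀ j, ∃ k ∈ range d, E k (p.2 j)) → ∀ i, ∃ n ∈ N, E (d n) (p.2 i) := by
    intro p hp hl i
    obtain ⟨_, ⟨n0, rfl⟩, hkE⟩ := hl i
    have hex : ∃ n, E (d n) (p.2 i) := ⟨n0, hkE⟩
    refine ⟨Nat.find hex, fun m hm hE' => ?_, Nat.find_spec hex⟩
    exact Nat.find_min hex hm (hE.trans hE' (Nat.find_spec hex))
  have hNE : ∀ m ∈ N, ∀ n ∈ N, E (d m) (d n) → m = n := by
    intro m hm n hn h
    rcases lt_trichotomy m n with h' | h' | h'
    · exact absurd h (hn m h')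
    · exact h'
    · exact absurd (hE.symm h) (hm n h')
  let Φ : Y × (J → ℕ) → Y × (J → X) := fun q => (q.1, fun i => d (q.2 i))
  have hΦ : Measurable Φ := by
    refine measurable_fst.prodMk (measurable_pi_lambda _ fun i => ?_)
    exact (measurable_from_top (f := d)).comp ((measurable_pi_apply i).comp measurable_snd)
  let C : Set (Y × (J → ℕ)) := {q | (∀ i, q.2 i ∈ N) ∧ Φ q ∈ A}
  have hC : MeasurableSet C := by
    refine MeasurableSet.inter ?_ (hΦ hA)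
    have : {q : Y × (J → ℕ) | ∀ i, q.2 i ∈ N} = ⋂ i, (fun q : Y × (J → ℕ) => q.2 i) ⁻¹' N := by
      ext q
      simp
    show MeasurableSet {q : Y × (J → ℕ) | ∀ i, q.2 i ∈ N}
    rw [this]
    exact MeasurableSet.iInter fun i =>
      ((measurable_pi_apply i).comp measurable_snd) (MeasurableSet.of_discrete)
  rcases hY C hC (fun q hq => hK (Φ q) hq.2 q.2
      (fun m n => ⟨fun h => hNE _ (hq.1 m) _ (hq.1 n) h, fun h => by
        show E (d (q.2 m)) (d (q.2 n))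
        rw [h]
        exact hE.refl _⟩)) (by
    rintro q ⟨hq1, hq2⟩ q' ⟨σ, h1, h2⟩
    refine ⟨fun i => ?_, hinv _ hq2 _ ⟨σ, h1, fun n => ?_⟩⟩
    · have := h2 (σ.symm i)
      rw [σ.apply_symm_apply] at this
      rw [← this]
      exact hq1 _
    · show E (d (q.2 n)) (d (q'.2 (σ n)))
      rw [← h2 n]
      exact hE.refl _) with ⟨S0, hS0, hS0c, hS02⟩ | ⟨g, g1, g2, g3⟩
  · right
    refine ⟨Φ '' S0, ?_, hS0c.image _, fun p hp hl => ?_⟩
    · rintro _ ⟨q, hq, rfl⟩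
      exact (hS0 hq).2
    · choose κ hκ1 hκ2 using hN p hp hl
      have hκC : (p.1, κ) ∈ C := ⟨hκ1, hinv p hp _ ⟨1, hI _, fun n => hE.symm (hκ2 n)⟩⟩
      obtain ⟨q, hq, σ, h1, h2⟩ := hS02 _ hκC
      refine ⟨Φ q, ⟨q, hq, rfl⟩, σ, h1, fun n => ?_⟩
      have h3 : κ n = q.2 (σ n) := h2 n
      show E (p.2 n) (d (q.2 (σ n)))
      rw [← h3]
      exact hE.symm (hκ2 n)
  · left
    refine ⟨fun b => Φ (g b), hΦ.comp g1, fun b => (g2 b).2, fun b b' hb hL => ?_⟩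
    obtain ⟨σ, h1, h2⟩ := hL
    exact g3 b b' hb ⟨σ, h1, fun n => hNE _ ((g2 b).1 n) _ ((g2 b').1 (σ n)) (h2 n)⟩

omit [TopologicalSpace X] [PolishSpace X] [MeasurableSpace X] [BorelSpace X]
  [TopologicalSpace Y] [PolishSpace Y] [MeasurableSpace Y] [BorelSpace Y] [Countable J] in
theorem LE_JJ {I : Equiv.Perm J → Y → Y → Prop} {E : X → X → Prop} {p q : Y × (J → X)}
    (h : LE I E p q) : JJ E p.2 q.2 := by
  obtain ⟨σ, -, h⟩ := h
  refine ⟨fun i => ⟨σ i, h i⟩, fun j => ⟨σ.symm j, ?_⟩⟩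
  have := h (σ.symm j)
  rwa [σ.apply_symm_apply] at this

/-- **The main theorem on labelled structures.** -/
theorem main2 [Nonempty J] (I : Equiv.Perm J → Y → Y → Prop) (hI : ∀ y, I 1 y y)
    {E : X → X → Prop} (hE : Equivalence E) (hEa : AnalyticSet {q : X × X | E q.1 q.2})
    (Z : Set X) (hZm : MeasurableSet Z) (hZi : ∀ x ∈ Z, ∀ x', E x x' → x' ∈ Z)
    (hX : ∀ C : Set X, MeasurableSet C → C ⊆ Z → (∀ x ∈ C, ∀ x', E x x' → x' ∈ C) → Dc E C)
    (K : Set (Y × (J → ℕ)))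
    (hY : ∀ C : Set (Y × (J → ℕ)), MeasurableSet C → C ⊆ K →
      (∀ p ∈ C, ∀ q, LE I (· = ·) p q → q ∈ C) → Dc (LE I (· = ·)) C)
    {A : Set (Y × (J → X))} (hA : MeasurableSet A)
    (hK : ∀ p ∈ A, ∀ κ : J → ℕ, (∀ m n, E (p.2 m) (p.2 n) ↔ κ m = κ n) → (p.1, κ) ∈ K)
    (hinv : ∀ p ∈ A, ∀ q, LE I E p q → q ∈ A) :
    (∃ h : (ℕ → Bool) → Y × (J → X), Measurable h ∧ (∀ b, h b ∈ A) ∧
      ∀ b b', b ≠ b' → ¬ LE I E (h b) (h b')) ∨
    ∃ S ⊆ A, S.Countable ∧ ∀ p ∈ A, (∀ j, p.2 j ∈ Z ∨ ∃ q ∈ A, {i | E (p.2 j) (q.2 i)}.Infinite) →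
      ∃ q ∈ S, LE I E p q := by
  rcases gen hE hEa Z hZm hZi hX hA (fun p y z h hy => hinv (p, y) hy (p, z) ⟨1, hI p, h⟩) with
    ⟨h, h1, h2, h3⟩ | ⟨D, hD, hD2⟩
  · left
    exact ⟨h, h1, h2, fun b b' hb hL => h3 b b' hb (LE_JJ hL)⟩
  rcases dlist I hI hE K hY hA hK hinv hD with h | ⟨S, h1, h2, h3⟩
  · exact Or.inl h
  · right
    refine ⟨S, h1, h2, fun p hp hr => h3 p hp fun j => ?_⟩
    rcases hr j with hz | ⟨q, hq, hinf⟩
    · exact (hD2 p hp).2 j hz
    · obtain ⟨i, hi, hi2⟩ := hinf.exists_notMem_finite (hD2 q hq).1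
      have h' : ¬ ∀ d ∈ D, ¬ E d (q.2 i) := hi2
      push Not at h'
      obtain ⟨d, hd, hdc⟩ := h'
      exact ⟨d, hd, hE.trans hdc (hE.symm hi)⟩

end Pool.Agent.U105.LB
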